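import Pool.Agent.CAM.Defs

set_option autoImplicit false

/-! Module Mxe: the maximal ergodic theorem (Hopf, Garsia's proof).
`hopf`: `g` integrable and measurable, `S_n = ∑_{i<n} g ∘ T^i`, `M_N = max(0, S_1, ..., S_N)`, `A_N = {M_N > 0}`.  For `1 ≤ n ≤ N`:
`M_N(T x) ≥ S_{n-1}(T x)`, so `g(x) + M_N(T x) ≥ S_n(x)`; on `A_N` `M_N = max_{1≤n≤N} S_n`, so `g ≥ M_N - M_N ∘ T` there; off `A_N`,
`0 ≥ M_N - M_N ∘ T`.  So `∫_{A_N} g ≥ ∫ (M_N - M_N ∘ T) = 0`; `A_N ↑ A = {∃ n, S_n > 0}` (dominated/monotone convergence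
`tendsto_setIntegral_of_monotone`).
`max_erg`: `g = f - l`: `{∃ N, l N < ∑_{n<N} f(T^n x)} = A`, `∫_A f ≥ l μ(A)`, `f ≥ 0`. -/

open Finset Filter Topology MeasureTheory

namespace Pool.Agent.CAM

/-- partial sums -/
noncomputable def Mxe_S {Ω : Type*} (T : Ω → Ω) (g : Ω → ℝ) (n : ℕ) (x : Ω) : ℝ := ∑ i ∈ range n, g (T^[i] x)

/-- maximal function -/
noncomputable def Mxe_M {Ω : Type*} (T : Ω → Ω) (g : Ω → ℝ) (N : ℕ) (x : Ω) : ℝ :=
  (range (N + 1)).sup' nonempty_range_add_one (fun n => Mxe_S T g n x)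

theorem Mxe_S_succ {Ω : Type*} (T : Ω → Ω) (g : Ω → ℝ) (n : ℕ) (x : Ω) :
    Mxe_S T g (n + 1) x = g x + Mxe_S T g n (T x) := by
  unfold Mxe_S
  rw [sum_range_succ', add_comm]
  rfl

theorem Mxe_le {Ω : Type*} (T : Ω → Ω) (g : Ω → ℝ) {n N : ℕ} (h : n ≤ N) (x : Ω) :
    Mxe_S T g n x ≤ Mxe_M T g N x := by
  unfold Mxe_M
  exact le_sup' (fun n => Mxe_S T g n x) (mem_range.2 (by omega))

theorem Mxe_nonneg {Ω : Type*} (T : Ω → Ω) (g : Ω → ℝ) (N : ℕ) (x : Ω) : 0 ≤ Mxe_M T g N x := by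
  have h := Mxe_le T g (Nat.zero_le N) x
  have h0 : Mxe_S T g 0 x = 0 := by simp [Mxe_S]
  rw [h0] at h
  exact h

theorem Mxe_pos_iff {Ω : Type*} (T : Ω → Ω) (g : Ω → ℝ) (N : ℕ) (x : Ω) :
    0 < Mxe_M T g N x ↔ ∃ n ≤ N, 0 < Mxe_S T g n x := by
  unfold Mxe_M
  rw [lt_sup'_iff]
  constructor
  · rintro ⟨n, hn, h⟩
    exact ⟨n, by rw [mem_range] at hn; omega, h⟩
  · rintro ⟨n, hn, h⟩
    exact ⟨n, mem_range.2 (by omega), h⟩

theorem Mxe_key {Ω : Type*} (T : Ω → Ω) (g : Ω → ℝ) (N : ℕ) (x : Ω) (h : 0 < Mxe_M T g N x) :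
    Mxe_M T g N x - Mxe_M T g N (T x) ≤ g x := by
  have h1 : Mxe_M T g N x ≤ g x + Mxe_M T g N (T x) := by
    have h2 : ∃ n ∈ range (N + 1), Mxe_M T g N x = Mxe_S T g n x := by
      unfold Mxe_M
      exact exists_mem_eq_sup' _ _
    obtain ⟨n, hn, h3⟩ := h2
    rw [mem_range] at hn
    rcases Nat.eq_zero_or_pos n with h0 | h0
    · exfalso
      rw [h3, h0] at h
      simp [Mxe_S] at h
    · obtain ⟨k, rfl⟩ : ∃ k, n = k + 1 := ⟨n - 1, by omega⟩
      rw [h3, Mxe_S_succ]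
      have := Mxe_le T g (n := k) (N := N) (by omega) (T x)
      linarith
  linarith

theorem Mxe_S_meas {Ω : Type*} [MeasurableSpace Ω] (T : Ω → Ω) (hT : Measurable T) (g : Ω → ℝ)
    (hg : Measurable g) (n : ℕ) : Measurable (Mxe_S T g n) := by
  unfold Mxe_S
  exact Finset.measurable_sum _ (fun i _ => hg.comp (hT.iterate i))

theorem Mxe_S_int {Ω : Type*} [MeasurableSpace Ω] (μ : Measure Ω) (T : Ω → Ω)
    (hT : MeasurePreserving T μ μ) (g : Ω → ℝ) (hg : Integrable g μ) (n : ℕ) :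
    Integrable (Mxe_S T g n) μ := by
  unfold Mxe_S
  exact integrable_finset_sum _ (fun i _ => (hT.iterate i).integrable_comp_of_integrable hg)

theorem Mxe_M_succ {Ω : Type*} (T : Ω → Ω) (g : Ω → ℝ) (N : ℕ) (x : Ω) :
    Mxe_M T g (N + 1) x = max (Mxe_S T g (N + 1) x) (Mxe_M T g N x) := by
  unfold Mxe_M
  have h : range (N + 1 + 1) = insert (N + 1) (range (N + 1)) := range_add_one
  simp only [h]
  rw [sup'_insert]

theorem Mxe_M_int {Ω : Type*} [MeasurableSpace Ω] (μ : Measure Ω) (T : Ω → Ω)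
    (hT : MeasurePreserving T μ μ) (g : Ω → ℝ) (hgm : Measurable g) (hg : Integrable g μ) (N : ℕ) :
    Measurable (Mxe_M T g N) ∧ Integrable (Mxe_M T g N) μ := by
  induction N with
  | zero =>
    have h : Mxe_M T g 0 = fun _ => 0 := by
      funext x
      unfold Mxe_M
      simp [Mxe_S]
    rw [h]
    exact ⟨measurable_const, integrable_zero _ _ _⟩
  | succ N ih =>
    have h : Mxe_M T g (N + 1) = fun x => max (Mxe_S T g (N + 1) x) (Mxe_M T g N x) := by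
      funext x
      exact Mxe_M_succ T g N x
    rw [h]
    exact ⟨(Mxe_S_meas T hT.measurable g hgm _).max ih.1, (Mxe_S_int μ T hT g hg _).sup ih.2⟩

theorem Mxe_N {Ω : Type*} [MeasurableSpace Ω] (μ : Measure Ω) (T : Ω → Ω)
    (hT : MeasurePreserving T μ μ) (g : Ω → ℝ) (hgm : Measurable g) (hg : Integrable g μ) (N : ℕ) :
    0 ≤ ∫ x in {x | 0 < Mxe_M T g N x}, g x ∂μ := by
  obtain ⟨hm, hi⟩ := Mxe_M_int μ T hT g hgm hg N
  have hmeas : MeasurableSet {x | 0 < Mxe_M T g N x} := measurableSet_lt measurable_const hm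
  have hiT : Integrable (fun x => Mxe_M T g N (T x)) μ := hT.integrable_comp_of_integrable hi
  have h1 : ∫ x, (Mxe_M T g N x - Mxe_M T g N (T x)) ∂μ = 0 := by
    rw [integral_sub hi hiT]
    have h2 : ∫ x, Mxe_M T g N (T x) ∂μ = ∫ x, Mxe_M T g N x ∂μ := by
      have h3 := integral_map (μ := μ) hT.measurable.aemeasurable (f := Mxe_M T g N)
        (by rw [hT.map_eq]; exact hm.aestronglyMeasurable)
      rw [hT.map_eq] at h3
      exact h3.symm
    rw [h2, sub_self]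
  rw [← integral_indicator hmeas]
  refine h1.symm.le.trans ?_
  apply integral_mono (hi.sub hiT) (hg.indicator hmeas)
  intro x
  by_cases hx : 0 < Mxe_M T g N x
  · rw [Set.indicator_of_mem (show x ∈ {x | 0 < Mxe_M T g N x} from hx)]
    exact Mxe_key T g N x hx
  · rw [Set.indicator_of_notMem (show x ∉ {x | 0 < Mxe_M T g N x} from hx)]
    have h2 := Mxe_nonneg T g N (T x)
    have h3 : Mxe_M T g N x ≤ 0 := not_lt.1 hx
    simp only [Pi.sub_apply]
    linarith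

theorem hopf {Ω : Type*} [MeasurableSpace Ω] (μ : Measure Ω) [IsFiniteMeasure μ] (T : Ω → Ω)
    (hT : MeasurePreserving T μ μ) (g : Ω → ℝ) (hgm : Measurable g) (hg : Integrable g μ) :
    0 ≤ ∫ x in {x | ∃ N : ℕ, 0 < ∑ n ∈ range N, g (T^[n] x)}, g x ∂μ := by
  have hU : {x | ∃ N : ℕ, 0 < ∑ n ∈ range N, g (T^[n] x)} = ⋃ N : ℕ, {x | 0 < Mxe_M T g N x} := by
    ext x
    rw [Set.mem_iUnion]
    constructor
    · rintro ⟨N, hN⟩
      exact ⟨N, (Mxe_pos_iff T g N x).2 ⟨N, le_rfl, hN⟩⟩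
    · rintro ⟨N, hN⟩
      obtain ⟨n, _, h⟩ := (Mxe_pos_iff T g N x).1 hN
      exact ⟨n, h⟩
  rw [hU]
  have hlim := tendsto_setIntegral_of_monotone (μ := μ) (f := g) (s := fun N : ℕ => {x | 0 < Mxe_M T g N x})
    (fun N => measurableSet_lt measurable_const (Mxe_M_int μ T hT g hgm hg N).1)
    (by
      intro N N' hNN x hx
      obtain ⟨n, h1, h2⟩ := (Mxe_pos_iff T g N x).1 hx
      exact (Mxe_pos_iff T g N' x).2 ⟨n, h1.trans hNN, h2⟩)
    hg.integrableOn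
  exact ge_of_tendsto' hlim (fun N => Mxe_N μ T hT g hgm hg N)

theorem max_erg {Ω : Type*} [MeasurableSpace Ω] (μ : Measure Ω) [IsFiniteMeasure μ] (T : Ω → Ω)
    (hT : MeasurePreserving T μ μ) (f : Ω → ℝ) (hf0 : ∀ x, 0 ≤ f x) (hfm : Measurable f)
    (hf : Integrable f μ) (l : ℝ) (hl : 0 < l) :
    μ {x | ∃ N : ℕ, l * N < ∑ n ∈ range N, f (T^[n] x)} ≤ ENNReal.ofReal ((∫ x, f x ∂μ) / l) := by
  have h1 := hopf μ T hT (fun x => f x - l) (hfm.sub_const l) (hf.sub (integrable_const l))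
  have hset : {x | ∃ N : ℕ, 0 < ∑ n ∈ range N, (f (T^[n] x) - l)} =
      {x | ∃ N : ℕ, l * N < ∑ n ∈ range N, f (T^[n] x)} := by
    ext x
    simp only [Set.mem_setOf_eq, sum_sub_distrib, sum_const, card_range, nsmul_eq_mul]
    constructor
    · rintro ⟨N, hN⟩; exact ⟨N, by linarith⟩
    · rintro ⟨N, hN⟩; exact ⟨N, by linarith⟩
  rw [hset] at h1
  set A := {x | ∃ N : ℕ, l * N < ∑ n ∈ range N, f (T^[n] x)} with hA
  have hAm : MeasurableSet A := by
    have : A = ⋃ N : ℕ, {x | l * N < ∑ n ∈ range N, f (T^[n] x)} := by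
      ext x; simp [hA]
    rw [this]
    apply MeasurableSet.iUnion
    intro N
    exact measurableSet_lt measurable_const (Mxe_S_meas T hT.measurable f hfm N)
  rw [integral_sub hf.integrableOn (integrable_const l).integrableOn, setIntegral_const, smul_eq_mul] at h1
  have h2 : ∫ x in A, f x ∂μ ≤ ∫ x, f x ∂μ :=
    setIntegral_le_integral hf (Eventually.of_forall hf0)
  have h3 : μ.real A ≤ (∫ x, f x ∂μ) / l := by
    rw [le_div_iff₀ hl]
    linarith
  have h4 : μ A = ENNReal.ofReal (μ.real A) := by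
    rw [Measure.real, ENNReal.ofReal_toReal (measure_ne_top μ A)]
  rw [h4]
  exact ENNReal.ofReal_le_ofReal h3

end Pool.Agent.CAM
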