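import Pool.Agent.CAM.Defs

set_option autoImplicit false

/-! Module Den: characters of a compact abelian group.
`orth`: there is `y` with `χ y ≠ 1`; `∫ χ(x) = ∫ χ(y x) = χ(y) ∫ χ(x)` (`integral_mul_left_eq_self`).
`den`: `C_c(G)` is dense in `L¹` (`Integrable.exists_hasCompactSupport_integral_sub_le`); the star subalgebra of `C(G, ℂ)` spanned by the
characters (closed under products and conjugation, contains `1`) separates the points by `hsep`
(`ContinuousMap.starSubalgebra_topologicalClosure_eq_top_of_separatesPoints`), so a continuous function is uniformly close to an element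
of `span ℂ (chars G)` (the adjoined algebra equals the span: `Submonoid.closure_eq`/`Algebra.adjoin_eq_span`), and
`∫ ‖f - g‖ ≤ sup ‖f - g‖ μ(G)`. -/

open Finset Filter Topology MeasureTheory

namespace Pool.Agent.CAM

/-- the continuous characters as complex functions -/
def chars (G : Type*) [CommGroup G] [TopologicalSpace G] : Set (G → ℂ) :=
  Set.range (fun χ : G →ₜ* Circle => fun x => (χ x : ℂ))

theorem orth {G : Type*} [CommGroup G] [TopologicalSpace G] [IsTopologicalGroup G]
    [MeasurableSpace G] [BorelSpace G] (μ : Measure G) [μ.IsMulLeftInvariant] (χ : G →ₜ* Circle)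
    (hχ : χ ≠ 1) : ∫ x, (χ x : ℂ) ∂μ = 0 := by
  obtain ⟨y, hy⟩ : ∃ y, χ y ≠ 1 := by
    by_contra h
    push Not at h
    exact hχ (by ext x; rw [h x]; rfl)
  have h1 : ∫ x, (χ (y * x) : ℂ) ∂μ = ∫ x, (χ x : ℂ) ∂μ :=
    integral_mul_left_eq_self (fun x => (χ x : ℂ)) y
  simp only [map_mul, Circle.coe_mul] at h1
  rw [integral_const_mul] at h1
  have h2 : ((χ y : ℂ) - 1) * ∫ x, (χ x : ℂ) ∂μ = 0 := by rw [sub_mul, h1, one_mul, sub_self]
  rcases mul_eq_zero.1 h2 with h3 | h3
  · exact absurd (Subtype.ext (by simpa [sub_eq_zero] using h3)) hy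
  · exact h3

theorem char_mul_mem {G : Type*} [CommGroup G] [TopologicalSpace G] [IsTopologicalGroup G]
    {f g : G → ℂ} (hf : f ∈ Submodule.span ℂ (chars G)) (hg : g ∈ Submodule.span ℂ (chars G)) :
    f * g ∈ Submodule.span ℂ (chars G) := by
  induction hf using Submodule.span_induction with
  | zero => rw [zero_mul]; exact zero_mem _
  | add x y _ _ hx hy => rw [add_mul]; exact add_mem hx hy
  | smul a x _ hx => rw [smul_mul_assoc]; exact Submodule.smul_mem _ _ hx
  | mem x hx =>
    induction hg using Submodule.span_induction with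
    | zero => rw [mul_zero]; exact zero_mem _
    | add y z _ _ hy hz => rw [mul_add]; exact add_mem hy hz
    | smul a y _ hy => rw [mul_smul_comm]; exact Submodule.smul_mem _ _ hy
    | mem y hy =>
      obtain ⟨χ, rfl⟩ := hx
      obtain ⟨ψ, rfl⟩ := hy
      apply Submodule.subset_span
      refine ⟨χ * ψ, ?_⟩
      funext x
      simp

theorem char_star_mem {G : Type*} [CommGroup G] [TopologicalSpace G] [IsTopologicalGroup G]
    {f : G → ℂ} (hf : f ∈ Submodule.span ℂ (chars G)) :
    (fun x => (starRingEnd ℂ) (f x)) ∈ Submodule.span ℂ (chars G) := by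
  induction hf using Submodule.span_induction with
  | zero =>
    have : (fun t : G => (starRingEnd ℂ) ((0 : G → ℂ) t)) = 0 := by
      funext t; simp
    rw [this]; exact zero_mem _
  | add x y _ _ hx hy =>
    have : (fun t => (starRingEnd ℂ) ((x + y) t)) =
        (fun t => (starRingEnd ℂ) (x t)) + (fun t => (starRingEnd ℂ) (y t)) := by
      funext t; simp
    rw [this]; exact add_mem hx hy
  | smul a x _ hx =>
    have : (fun t => (starRingEnd ℂ) ((a • x) t)) =
        (starRingEnd ℂ) a • (fun t => (starRingEnd ℂ) (x t)) := by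
      funext t; simp
    rw [this]; exact Submodule.smul_mem _ _ hx
  | mem x hx =>
    obtain ⟨χ, rfl⟩ := hx
    apply Submodule.subset_span
    refine ⟨χ⁻¹, ?_⟩
    funext t
    have : (χ⁻¹) t = (χ t)⁻¹ := rfl
    simp only [this, Circle.coe_inv_eq_conj]

theorem char_one_mem {G : Type*} [CommGroup G] [TopologicalSpace G] :
    (1 : G → ℂ) ∈ Submodule.span ℂ (chars G) := by
  apply Submodule.subset_span
  refine ⟨1, ?_⟩
  funext x
  have : (1 : G →ₜ* Circle) x = 1 := rfl
  simp only [this, Circle.coe_one, Pi.one_apply]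

/-- the star algebra spanned by the characters -/
noncomputable def charAlg (G : Type*) [CommGroup G] [TopologicalSpace G] [IsTopologicalGroup G]
    [CompactSpace G] : StarSubalgebra ℂ C(G, ℂ) where
  carrier := {f | (f : G → ℂ) ∈ Submodule.span ℂ (chars G)}
  mul_mem' := by
    intro a b ha hb
    rw [Set.mem_ofPred_eq] at ha hb ⊢
    exact char_mul_mem ha hb
  add_mem' := by
    intro a b ha hb
    rw [Set.mem_ofPred_eq] at ha hb ⊢
    rw [ContinuousMap.coe_add]
    exact Submodule.add_mem _ ha hb
  algebraMap_mem' := by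
    intro r
    have : ((algebraMap ℂ C(G, ℂ) r : C(G, ℂ)) : G → ℂ) = r • (1 : G → ℂ) := by
      funext x; simp [algebraMap_apply]
    rw [Set.mem_ofPred_eq, this]
    exact Submodule.smul_mem _ _ char_one_mem
  star_mem' := by
    intro a ha
    rw [Set.mem_ofPred_eq] at ha ⊢
    exact char_star_mem ha

theorem char_cont {G : Type*} [CommGroup G] [TopologicalSpace G] {g : G → ℂ}
    (hg : g ∈ Submodule.span ℂ (chars G)) : Continuous g := by
  induction hg using Submodule.span_induction with
  | zero => exact continuous_zero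
  | add x y _ _ hx hy => exact hx.add hy
  | smul a x _ hx => exact hx.const_smul a
  | mem x hx =>
    obtain ⟨χ, rfl⟩ := hx
    exact continuous_subtype_val.comp χ.continuous_toFun

theorem den {G : Type*} [CommGroup G] [TopologicalSpace G] [IsTopologicalGroup G] [CompactSpace G]
    [T2Space G] [MeasurableSpace G] [BorelSpace G] (μ : Measure G) [IsFiniteMeasure μ] [μ.Regular]
    (hsep : ∀ x : G, x ≠ 1 → ∃ χ : G →ₜ* Circle, χ x ≠ 1) (f : G → ℂ) (hf : Integrable f μ) (ε : ℝ)
    (hε : 0 < ε) : ∃ g ∈ Submodule.span ℂ (chars G), ∫ x, ‖f x - g x‖ ∂μ ≤ ε := by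
  obtain ⟨h, -, hfh, hc, hi⟩ := hf.exists_hasCompactSupport_integral_sub_le (half_pos hε)
  have htop : (charAlg G).topologicalClosure = ⊤ := by
    apply ContinuousMap.starSubalgebra_topologicalClosure_eq_top_of_separatesPoints
    intro x y hxy
    obtain ⟨χ, hχ⟩ := hsep (x * y⁻¹) (fun h => hxy (mul_inv_eq_one.1 h))
    refine ⟨fun t => (χ t : ℂ), ⟨⟨fun t => (χ t : ℂ), continuous_subtype_val.comp χ.continuous_toFun⟩, ?_, rfl⟩, ?_⟩
    · exact Submodule.subset_span ⟨χ, rfl⟩
    · intro h
      apply hχ
      have h2 : χ x = χ y := Subtype.ext h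
      rw [map_mul, map_inv, h2, mul_inv_cancel]
  set hcm : C(G, ℂ) := ⟨h, hc⟩ with hhcm
  have hmem : hcm ∈ closure ((charAlg G : StarSubalgebra ℂ C(G, ℂ)) : Set C(G, ℂ)) := by
    have : hcm ∈ (charAlg G).topologicalClosure := by rw [htop]; trivial
    exact this
  set δ : ℝ := ε / 2 / (μ.real Set.univ + 1) with hδ
  have hμ : 0 ≤ μ.real Set.univ := measureReal_nonneg
  have hδ0 : 0 < δ := by positivity
  obtain ⟨g, hg, hgd⟩ := Metric.mem_closure_iff.1 hmem δ hδ0
  refine ⟨g, hg, ?_⟩
  have hgc : Continuous (g : G → ℂ) := g.continuous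
  have hgi : Integrable (g : G → ℂ) μ := by
    refine Integrable.of_bound (C := ‖g‖) hgc.aestronglyMeasurable (Filter.Eventually.of_forall fun x => g.norm_coe_le_norm x)
  have h1 : ∀ x, ‖h x - g x‖ ≤ δ := by
    intro x
    have := ContinuousMap.dist_apply_le_dist (f := hcm) (g := g) x
    rw [dist_eq_norm] at this
    exact this.trans hgd.le
  calc ∫ x, ‖f x - g x‖ ∂μ ≤ ∫ x, (‖f x - h x‖ + δ) ∂μ := by
        apply integral_mono (hf.sub hgi).norm ((hf.sub hi).norm.add (integrable_const δ))
        intro x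
        calc ‖f x - g x‖ = ‖(f x - h x) + (h x - g x)‖ := by ring_nf
          _ ≤ ‖f x - h x‖ + ‖h x - g x‖ := norm_add_le _ _
          _ ≤ ‖f x - h x‖ + δ := by gcongr; exact h1 x
    _ = ∫ x, ‖f x - h x‖ ∂μ + μ.real Set.univ * δ := by
        have e := integral_add (hf.sub hi).norm (integrable_const δ)
        simp only [Pi.sub_apply] at e
        rw [e, integral_const, smul_eq_mul]
    _ ≤ ε / 2 + ε / 2 := by
        gcongr
        rw [hδ, mul_div_assoc', div_le_iff₀ (by positivity)]
        nlinarith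
    _ = ε := add_halves ε

end Pool.Agent.CAM
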