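import Pool.Agent.CAM.Cor
import Pool.Agent.CAM.Den

set_option autoImplicit false

/-! Module Aff: commuting affine maps acting on affine characters.
`Γ = Additive (Circle × (G →ₜ* Circle))`, `ev (z, χ) x = z χ(x)` is injective in `(z, χ)` (`x = 1` gives `z`).
`IsAff T`: `T x = c * α x`.  For such `T` there is an endomorphism `τ_T (z, χ) = (z χ(c), χ ∘ α)` of `Γ` with `ev (τ_T φ) x = ev φ (T x)`; it is injective
(`α` surjective), fixes `K = {(z, 1)}` pointwise; commuting maps give commuting endomorphisms (faithfulness of `ev`).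
Let `A` be the subring of `AddMonoid.End Γ` generated by the `τ_i` (`Subring.closure`, commutative: `Subring.closureCommRingOfComm`),
acting on `Γ`; `g n = ∑_i τ_i^n φ_i`, `φ_i = (1, χ_i)`; `act (pol L 0) g = 0` for `L = List.ofFn τ` (each term is killed by `X - C τ_i`,
which divides the product).  `core` with `hint`: `∫ z χ = 0` for `χ ≠ 1` (`orth`).
`IsAff.zpow`: integer powers of an affine permutation are affine (a product of affine maps is affine; inverse `x ↦ α⁻¹(c⁻¹) α⁻¹(x)`).
`IsAff.mp`: affine maps preserve the Haar probability measure (`MonoidHom.measurePreserving` or uniqueness of Haar measure, and translations). -/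

open Finset Filter Topology MeasureTheory Polynomial

namespace Pool.Agent.CAM

/-- affine bijection of a topological group -/
def IsAff {G : Type*} [CommGroup G] [TopologicalSpace G] (T : Equiv.Perm G) : Prop :=
  ∃ (α : G ≃ₜ* G) (c : G), ∀ x, T x = c * α x

theorem IsAff.one {G : Type*} [CommGroup G] [TopologicalSpace G] : IsAff (1 : Equiv.Perm G) :=
  ⟨ContinuousMulEquiv.refl G, 1, fun x => by simp⟩

theorem IsAff.mul {G : Type*} [CommGroup G] [TopologicalSpace G] {T S : Equiv.Perm G}
    (h : IsAff T) (h' : IsAff S) : IsAff (T * S) := by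
  obtain ⟨α, c, hα⟩ := h
  obtain ⟨β, d, hβ⟩ := h'
  refine ⟨β.trans α, c * α d, fun x => ?_⟩
  rw [Equiv.Perm.mul_apply, hβ, hα, map_mul, mul_assoc]
  rfl

theorem IsAff.inv {G : Type*} [CommGroup G] [TopologicalSpace G] {T : Equiv.Perm G}
    (h : IsAff T) : IsAff T⁻¹ := by
  obtain ⟨α, c, hα⟩ := h
  refine ⟨α.symm, α.symm c⁻¹, fun x => ?_⟩
  rw [Equiv.Perm.inv_eq_iff_eq, hα, map_mul, ContinuousMulEquiv.apply_symm_apply,
    ContinuousMulEquiv.apply_symm_apply, mul_inv_cancel_left]

theorem IsAff.pow {G : Type*} [CommGroup G] [TopologicalSpace G] {T : Equiv.Perm G} (h : IsAff T)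
    (n : ℕ) : IsAff (T ^ n) := by
  induction n with
  | zero => rw [pow_zero]; exact IsAff.one
  | succ n ih => rw [pow_succ]; exact ih.mul h

theorem IsAff.zpow {G : Type*} [CommGroup G] [TopologicalSpace G] {T : Equiv.Perm G} (h : IsAff T)
    (n : ℤ) : IsAff (T ^ n) := by
  cases n with
  | ofNat n => rw [Int.ofNat_eq_natCast, zpow_natCast]; exact h.pow n
  | negSucc n => rw [zpow_negSucc]; exact (h.pow (n + 1)).inv

theorem IsAff.mp {G : Type*} [CommGroup G] [TopologicalSpace G] [IsTopologicalGroup G]
    [CompactSpace G] [T2Space G] [MeasurableSpace G] [BorelSpace G] (μ : Measure G)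
    [μ.IsHaarMeasure] [μ.Regular] [IsProbabilityMeasure μ] {T : Equiv.Perm G} (h : IsAff T) :
    MeasurePreserving T μ μ := by
  obtain ⟨α, c, hα⟩ := h
  have h1 : MeasurePreserving α μ μ :=
    MonoidHom.measurePreserving (f := (α : G →* G)) α.continuous α.surjective rfl
  have h2 : MeasurePreserving (fun x => c * x) μ μ := measurePreserving_mul_left μ c
  have h3 := h2.comp h1
  have h4 : (T : G → G) = (fun x => c * x) ∘ α := by
    funext x
    exact hα x
  rw [h4]
  exact h3

/-- the group of affine characters -/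
abbrev Ach (G : Type*) [CommGroup G] [TopologicalSpace G] := Additive (Circle × (G →ₜ* Circle))

/-- evaluation of an affine character -/
noncomputable def eva {G : Type*} [CommGroup G] [TopologicalSpace G] (a : Ach G) (x : G) : Circle :=
  (Additive.toMul a).1 * (Additive.toMul a).2 x

theorem eva_add {G : Type*} [CommGroup G] [TopologicalSpace G] (a b : Ach G) (x : G) :
    eva (a + b) x = eva a x * eva b x := by
  unfold eva
  rw [toMul_add, Prod.fst_mul, Prod.snd_mul]
  change _ * ((Additive.toMul a).2 x * (Additive.toMul b).2 x) = _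
  exact mul_mul_mul_comm _ _ _ _

theorem eva_zero {G : Type*} [CommGroup G] [TopologicalSpace G] (x : G) : eva (0 : Ach G) x = 1 := by
  have h := eva_add (0 : Ach G) 0 x
  rw [add_zero] at h
  exact (left_eq_mul.1 h)

theorem eva_inj {G : Type*} [CommGroup G] [TopologicalSpace G] {a b : Ach G}
    (h : ∀ x, eva a x = eva b x) : a = b := by
  have h1 : (Additive.toMul a).1 = (Additive.toMul b).1 := by
    have := h 1
    simpa [eva] using this
  have h2 : (Additive.toMul a).2 = (Additive.toMul b).2 := by
    ext x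
    have := h x
    unfold eva at this
    rw [h1] at this
    exact congrArg _ (mul_left_cancel this)
  exact Additive.toMul.injective (Prod.ext h1 h2)

theorem exists_tau {G : Type*} [CommGroup G] [TopologicalSpace G] {T : Equiv.Perm G}
    (h : IsAff T) : ∃ τ : AddMonoid.End (Ach G), ∀ a x, eva (τ a) x = eva a (T x) := by
  obtain ⟨α, c, hα⟩ := h
  let αh : G →ₜ* G := ⟨(α : G →* G), α.continuous⟩
  refine ⟨{ toFun := fun a => Additive.ofMul ((Additive.toMul a).1 * (Additive.toMul a).2 c,
              (Additive.toMul a).2.comp αh)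
            map_zero' := ?_
            map_add' := ?_ }, ?_⟩
  · apply eva_inj
    intro x
    rw [eva_zero]
    simp [eva]
  · intro a b
    apply eva_inj
    intro x
    rw [eva_add]
    unfold eva
    simp only [toMul_ofMul, toMul_add, Prod.fst_mul, Prod.snd_mul]
    change _ * ((Additive.toMul a).2 c * (Additive.toMul b).2 c) *
      ((Additive.toMul a).2 (αh x) * (Additive.toMul b).2 (αh x)) =
      ((Additive.toMul a).1 * (Additive.toMul a).2 c) * (Additive.toMul a).2 (αh x) *
      (((Additive.toMul b).1 * (Additive.toMul b).2 c) * (Additive.toMul b).2 (αh x))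
    simp only [mul_comm, mul_left_comm]
  · intro a x
    change ((Additive.toMul a).1 * (Additive.toMul a).2 c) * (Additive.toMul a).2 (α x) = _
    unfold eva
    rw [hα, map_mul, mul_assoc]

/-- the constants -/
def Kst (G : Type*) [CommGroup G] [TopologicalSpace G] : AddSubgroup (Ach G) where
  carrier := {a | (Additive.toMul a).2 = 1}
  zero_mem' := rfl
  add_mem' := by
    intro a b ha hb
    simp only [Set.mem_ofPred_eq, toMul_add, Prod.snd_mul] at *
    rw [ha, hb, one_mul]
  neg_mem' := by
    intro a ha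
    simp only [Set.mem_ofPred_eq, toMul_neg, Prod.snd_inv] at *
    rw [ha, inv_one]

theorem act_sum_pow {A Γ : Type*} [CommRing A] [AddCommGroup Γ] [Module A Γ] {k : ℕ}
    (τ : Fin k → A) (φ : Fin k → Γ) :
    act (pol (List.ofFn τ) 0) (fun n => ∑ i, τ i ^ n • φ i) = 0 := by
  have h1 : (fun n => ∑ i, τ i ^ n • φ i) = ∑ i, (fun n => τ i ^ n • φ i) := by
    funext n; rw [Finset.sum_apply]
  have h2 : ∀ i, act (pol (List.ofFn τ) 0) (fun n => τ i ^ n • φ i) = 0 := by
    intro i
    have h3 : act (X - C (τ i) : A[X]) (fun n => τ i ^ n • φ i) = 0 := by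
      funext n
      rw [act_sub, Pi.sub_apply, act_X, act_C, pow_succ', mul_smul]
      simp
    refine act_dvd ?_ h3
    unfold pol
    rw [pow_zero, mul_one]
    apply List.dvd_prod
    rw [List.mem_map]
    exact ⟨τ i, List.mem_ofFn.2 ⟨i, rfl⟩, rfl⟩
  rw [h1]
  unfold act at h2 ⊢
  rw [map_sum]
  exact Finset.sum_eq_zero fun i _ => h2 i

open scoped IsMulCommutative in
theorem aff {G : Type*} [CommGroup G] [TopologicalSpace G] [IsTopologicalGroup G]
    [CompactSpace G] [T2Space G] [MeasurableSpace G] [BorelSpace G] (μ : Measure G)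
    [μ.IsHaarMeasure] [μ.Regular] [IsProbabilityMeasure μ] {k : ℕ} (T : Fin k → Equiv.Perm G)
    (hT : ∀ i, IsAff (T i)) (hcomm : ∀ i j, T i * T j = T j * T i) (χ : Fin k → (G →ₜ* Circle)) :
    ∀ᵐ x ∂μ, Cv (fun n => ∏ i, (χ i ((T i)^[n] x) : ℂ)) := by
  classical
  choose τ hτ using fun i => exists_tau (hT i)
  have hc : ∀ x ∈ Set.range τ, ∀ y ∈ Set.range τ, x * y = y * x := by
    rintro _ ⟨i, rfl⟩ _ ⟨j, rfl⟩
    ext a : 1
    apply eva_inj
    intro x
    change eva (τ i (τ j a)) x = eva (τ j (τ i a)) x
    rw [hτ, hτ, hτ, hτ, ← Equiv.Perm.mul_apply, hcomm, Equiv.Perm.mul_apply]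
  have hcm : IsMulCommutative (Subring.closure (Set.range τ)) := Subring.isMulCommutative_closure hc
  let A := Subring.closure (Set.range τ)
  let t : Fin k → A := fun i => ⟨τ i, Subring.subset_closure ⟨i, rfl⟩⟩
  let φ : Fin k → Ach G := fun i => Additive.ofMul (1, χ i)
  have ht : ∀ i (a : Ach G), t i • a = τ i a := fun i a => rfl
  have htn : ∀ i (n : ℕ) (a : Ach G) (x : G), eva (t i ^ n • a) x = eva a ((T i)^[n] x) := by
    intro i n
    induction n with
    | zero => intro a x; rw [pow_zero, one_smul]; rfl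
    | succ n ih =>
      intro a x
      rw [pow_succ, mul_smul, ht, ih, hτ, ← Function.iterate_succ_apply' (T i)]
  have hev : ∀ n x, (eva (∑ i, t i ^ n • φ i) x : ℂ) = ∏ i, (χ i ((T i)^[n] x) : ℂ) := by
    intro n x
    have h1 : ∀ s : Finset (Fin k), (eva (∑ i ∈ s, t i ^ n • φ i) x : ℂ) = ∏ i ∈ s, (χ i ((T i)^[n] x) : ℂ) := by
      intro s
      induction s using Finset.induction_on with
      | empty => rw [Finset.sum_empty, Finset.prod_empty, eva_zero]; rfl
      | insert i s hi ih =>
        rw [Finset.sum_insert hi, Finset.prod_insert hi, eva_add, Circle.coe_mul, ih, htn]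
        congr 1
        simp [eva, φ]
    exact h1 _
  have hmain := core (A := A) (Γ := Ach G) μ eva eva_add (fun a => ?_) (Kst G) (fun a ha => ?_)
    (List.ofFn t) ?_ ?_ 0 (fun n => ∑ i, t i ^ n • φ i) (act_sum_pow t φ)
  · filter_upwards [hmain] with x hx
    simpa only [hev] using hx
  · have : Continuous (fun x => (eva a x : ℂ)) := by
      unfold eva
      exact continuous_subtype_val.comp (continuous_const.mul (Additive.toMul a).2.continuous_toFun)
    exact this.aestronglyMeasurable
  · have h1 : (Additive.toMul a).2 ≠ 1 := ha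
    have h2 := orth μ (Additive.toMul a).2 h1
    simp only [eva, Circle.coe_mul]
    rw [integral_const_mul, h2, mul_zero]
  · intro a ha γ h0
    obtain ⟨i, rfl⟩ := List.mem_ofFn.1 ha
    apply eva_inj
    intro x
    obtain ⟨y, rfl⟩ := (T i).surjective x
    rw [← hτ, ← ht, h0, eva_zero, eva_zero]
  · intro a ha γ hγ
    obtain ⟨i, rfl⟩ := List.mem_ofFn.1 ha
    rw [ht]
    apply eva_inj
    intro x
    rw [hτ]
    have h1 : (Additive.toMul γ).2 = 1 := hγ
    simp [eva, h1]

end Pool.Agent.CAM
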