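import Pool.Agent.CAM.Defs

set_option autoImplicit false

/-! Module Cas: the algebraic step (a cube in some `E_h`).
Let `bs = L ++ List.replicate q 1` (length `es.length`) and `P = ∏_{(b, e) ∈ zip bs es} (X^e - C (b^e))`, `B = act (X^h - 1) g`, i.e.
`B m = g (m+h) - g m`, `u = act P B`.
(1) if `HasCube es {m | B m ∈ K} n` then `u n ∈ K`: induction on the lists; `B' m = B (m+e) - b^e • B m ∈ K` if `B m, B (m+e) ∈ K`
    (`b^e` fixes `K` pointwise).
(2) `(X - C b) ∣ X^e - C (b^e)` (`sub_dvd_pow_sub_pow`), so `pol (a :: L) q ∣ (X - C a) * P * (X^h - 1)`, so `act (X - C a) u = 0` (`act_dvd`, `act_mul`),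
    i.e. `u (m+1) = a • u m`, `u m = a^m • u 0`.
(3) `u n ∈ K`: `a^n • u 0 = u n = a^n • u n`, `a` is injective, so `u 0 = u n ∈ K` and `u m = u 0` for all `m`: `act (X - 1) u = 0`.
(4) `d = h * es.prod`.  `(X - 1) * P * (X^h - 1)` divides `∏_{b ∈ L} (X^d - C (b^d)) * (X^d - 1)^(q+2) = expand A d (pol (L.map (·^d)) (q+2))`
    (`e ∣ d` for `e ∈ es`: `List.dvd_prod`; `e ∣ d → X^e - C b^e ∣ X^d - C b^d`).
(5) `act (expand A d Q) g (c + d * m) = act Q (fun m => g (c + d * m)) m` for every polynomial `Q` (polynomial induction, or: the linear map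
    `r g m = g (c + d m)` satisfies `r ∘ sh^d = sh ∘ r`). -/

open Finset Polynomial

namespace Pool.Agent.CAM

section Cas

variable {A Γ : Type*} [CommRing A] [AddCommGroup Γ] [Module A Γ]

noncomputable def Cas_P : List A → List ℕ → A[X]
  | (b :: bs), (e :: es) => (X ^ e - C (b ^ e)) * Cas_P bs es
  | [], _ => 1
  | _, [] => 1

theorem Cas_mono (es : List ℕ) : ∀ (E F : Set ℕ) (n : ℕ), E ⊆ F → HasCube es E n → HasCube es F n := by
  induction es with
  | nil => intro E F n h hE; exact h hE
  | cons e es ih =>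
    intro E F n h hE
    exact ih _ _ n (fun m hm => ⟨h hm.1, h hm.2⟩) hE

theorem Cas_pow (K : AddSubgroup Γ) (b : A) (hb : ∀ γ ∈ K, b • γ = γ) (e : ℕ) :
    ∀ γ ∈ K, b ^ e • γ = γ := by
  induction e with
  | zero => intro γ _; simp
  | succ e ih => intro γ hγ; rw [pow_succ, mul_smul, hb γ hγ, ih γ hγ]

theorem Cas_cube (K : AddSubgroup Γ) (es : List ℕ) : ∀ (bs : List A) (B : ℕ → Γ) (n : ℕ),
    bs.length = es.length → (∀ b ∈ bs, ∀ γ ∈ K, b • γ = γ) →
    HasCube es {m | B m ∈ K} n → act (Cas_P bs es) B n ∈ K := by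
  induction es with
  | nil =>
    intro bs B n hl _ hc
    have : bs = [] := List.eq_nil_of_length_eq_zero (by simpa using hl)
    subst this
    simp only [Cas_P, act_one]
    exact hc
  | cons e es ih =>
    intro bs B n hl hb hc
    match bs, hl, hb with
    | (b :: bs), hl, hb =>
      have h1 : act (Cas_P (b :: bs) (e :: es)) B = act (Cas_P bs es) (act (X ^ e - C (b ^ e)) B) := by
        simp only [Cas_P]
        rw [mul_comm, act_mul]
      rw [h1]
      apply ih bs _ n (by simpa using hl) (fun b' hb' => hb b' (List.mem_cons_of_mem _ hb'))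
      refine Cas_mono es _ _ n ?_ hc
      intro m hm
      have hm1 : B m ∈ K := hm.1
      have hm2 : B (m + e) ∈ K := hm.2
      show act (X ^ e - C (b ^ e)) B m ∈ K
      rw [act_fac, Cas_pow K b (hb b List.mem_cons_self) e _ hm1]
      exact K.sub_mem hm2 hm1

theorem Cas_dvd1 (b : A) (e : ℕ) : (X - C b : A[X]) ∣ X ^ e - C (b ^ e) := by
  rw [C_pow]
  exact sub_dvd_pow_sub_pow _ _ e

theorem Cas_dvd2 (b : A) {e d : ℕ} (h : e ∣ d) : (X ^ e - C (b ^ e) : A[X]) ∣ X ^ d - C (b ^ d) := by
  obtain ⟨k, rfl⟩ := h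
  rw [pow_mul, pow_mul, C_pow (a := b ^ e) (n := k)]
  exact sub_dvd_pow_sub_pow _ _ k

theorem Cas_dvd3 (es : List ℕ) : ∀ bs : List A, bs.length = es.length →
    (bs.map (fun b => X - C b)).prod ∣ Cas_P bs es := by
  induction es with
  | nil =>
    intro bs hl
    have : bs = [] := List.eq_nil_of_length_eq_zero (by simpa using hl)
    subst this
    simp [Cas_P]
  | cons e es ih =>
    intro bs hl
    match bs, hl with
    | (b :: bs), hl =>
      simp only [Cas_P, List.map_cons, List.prod_cons]
      exact mul_dvd_mul (Cas_dvd1 b e) (ih bs (by simpa using hl))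

theorem Cas_dvd4 (d : ℕ) (es : List ℕ) : ∀ bs : List A, bs.length = es.length → (∀ e ∈ es, e ∣ d) →
    Cas_P bs es ∣ (bs.map (fun b => X ^ d - C (b ^ d))).prod := by
  induction es with
  | nil =>
    intro bs hl _
    have : bs = [] := List.eq_nil_of_length_eq_zero (by simpa using hl)
    subst this
    simp [Cas_P]
  | cons e es ih =>
    intro bs hl hd
    match bs, hl with
    | (b :: bs), hl =>
      simp only [Cas_P, List.map_cons, List.prod_cons]
      exact mul_dvd_mul (Cas_dvd2 b (hd e List.mem_cons_self))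
        (ih bs (by simpa using hl) (fun e' he' => hd e' (List.mem_cons_of_mem _ he')))

theorem Cas_expand (d : ℕ) (L : List A) (q : ℕ) :
    expand A d (pol (L.map (fun b => b ^ d)) q)
      = (L.map (fun b => X ^ d - C (b ^ d))).prod * (X ^ d - 1) ^ q := by
  unfold pol
  rw [map_mul, map_pow, map_sub, expand_X, map_one, map_list_prod, List.map_map, List.map_map]
  congr 2
  apply List.map_congr_left
  intro b _
  simp

theorem Cas_act_expand (d c : ℕ) (g : ℕ → Γ) (Q : A[X]) : ∀ m : ℕ,
    act (expand A d Q) g (c + d * m) = act Q (fun m => g (c + d * m)) m := by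
  induction Q using Polynomial.induction_on' with
  | add p q hp hq =>
    intro m
    rw [map_add, act_add, act_add, Pi.add_apply, Pi.add_apply, hp, hq]
  | monomial k a =>
    intro m
    rw [expand_monomial, ← C_mul_X_pow_eq_monomial, ← C_mul_X_pow_eq_monomial, act_mul, act_mul,
      act_C, act_C, act_X_pow, act_X_pow]
    congr 2
    ring

end Cas

theorem cas {A Γ : Type*} [CommRing A] [AddCommGroup Γ] [Module A Γ] (K : AddSubgroup Γ) (a : A)
    (L : List A) (hinj : ∀ γ : Γ, a • γ = 0 → γ = 0) (hK : ∀ b ∈ a :: L, ∀ γ ∈ K, b • γ = γ)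
    (q : ℕ) (g : ℕ → Γ) (hg : act (pol (a :: L) q) g = 0) (h : ℕ) (hh : 1 ≤ h) (es : List ℕ)
    (hes : es.length = L.length + q) (hpos : ∀ e ∈ es, 1 ≤ e) (n : ℕ)
    (hc : HasCube es {n | g (n + h) - g n ∈ K} n) :
    ∃ d : ℕ, 1 ≤ d ∧ ∀ c : ℕ, act (pol (L.map (fun b => b ^ d)) (q + 2)) (fun m => g (c + d * m)) = 0 := by
  classical
  set bs : List A := L ++ List.replicate q 1 with hbs
  have hlen : bs.length = es.length := by rw [hbs, hes]; simp
  set P : A[X] := Cas_P bs es with hP
  set B : ℕ → Γ := act (X ^ h - 1 : A[X]) g with hB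
  have hBv : ∀ m, B m = g (m + h) - g m := by
    intro m
    rw [hB, act_sub, Pi.sub_apply, act_X_pow, act_one]
  set u : ℕ → Γ := act P B with hu
  have hmapbs : (bs.map (fun b => X - C b)).prod = pol L q := by
    unfold pol
    rw [hbs, List.map_append, List.prod_append, List.map_replicate, List.prod_replicate, C_1]
  -- (1)
  have h1 : u n ∈ K := by
    apply Cas_cube K es bs B n hlen
    · intro b hb γ hγ
      rw [hbs, List.mem_append] at hb
      rcases hb with hb | hb
      · exact hK b (List.mem_cons_of_mem _ hb) γ hγ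
      · rw [List.eq_of_mem_replicate hb, one_smul]
    · have : {m | B m ∈ K} = {n | g (n + h) - g n ∈ K} := by
        ext m; simp only [Set.mem_setOf_eq, hBv]
      rw [this]; exact hc
  -- (2)
  have h2 : act (X - C a : A[X]) u = 0 := by
    have hd : pol (a :: L) q ∣ ((X - C a) * P) * (X ^ h - 1) := by
      apply Dvd.dvd.mul_right
      have : pol (a :: L) q = (X - C a) * pol L q := by
        unfold pol; rw [List.map_cons, List.prod_cons, mul_assoc]
      rw [this, ← hmapbs]
      exact mul_dvd_mul_left _ (Cas_dvd3 es bs hlen)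
    have := act_dvd hd hg
    rw [act_mul, act_mul] at this
    exact this
  have h2' : ∀ m, u (m + 1) = a • u m := by
    intro m
    have := congrFun h2 m
    rw [act_sub, Pi.sub_apply, act_X, act_C] at this
    exact sub_eq_zero.mp this
  have h2'' : ∀ m, u m = a ^ m • u 0 := by
    intro m
    induction m with
    | zero => simp
    | succ m ih => rw [h2', ih, ← mul_smul, ← pow_succ']
  -- (3)
  have haK : ∀ γ ∈ K, a • γ = γ := hK a List.mem_cons_self
  have hinj' : ∀ (m : ℕ) (γ : Γ), a ^ m • γ = 0 → γ = 0 := by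
    intro m
    induction m with
    | zero => intro γ hγ; simpa using hγ
    | succ m ih =>
      intro γ hγ
      rw [pow_succ, mul_smul] at hγ
      exact hinj γ (ih _ hγ)
  have h3 : u 0 = u n := by
    apply sub_eq_zero.mp
    apply hinj' n
    rw [smul_sub, ← h2'' n, Cas_pow K a haK n _ h1, sub_self]
  have hu0 : u 0 ∈ K := by rw [h3]; exact h1
  have h4 : act (X - 1 : A[X]) u = 0 := by
    funext m
    rw [act_sub, Pi.sub_apply, act_X, act_one, h2'' (m + 1), h2'' m, Cas_pow K a haK _ _ hu0,
      Cas_pow K a haK _ _ hu0, sub_self, Pi.zero_apply]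
  -- (4)
  refine ⟨h * es.prod, ?_, ?_⟩
  · have : 0 < es.prod := List.prod_pos (fun e he => hpos e he)
    exact Nat.mul_pos hh this
  intro c
  set d := h * es.prod with hd
  have hdvd : (((X - 1) * P) * (X ^ h - 1) : A[X]) ∣ expand A d (pol (L.map (fun b => b ^ d)) (q + 2)) := by
    rw [Cas_expand]
    have e1 : (X - 1 : A[X]) ∣ X ^ d - 1 := by
      have := Cas_dvd1 (1 : A) d
      simpa using this
    have e2 : (X ^ h - 1 : A[X]) ∣ X ^ d - 1 := by
      have := Cas_dvd2 (1 : A) (e := h) (d := d) (Dvd.intro _ rfl)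
      simpa using this
    have e3 : P ∣ (L.map (fun b => X ^ d - C (b ^ d))).prod * (X ^ d - 1) ^ q := by
      have := Cas_dvd4 (A := A) d es bs hlen (fun e he => Dvd.dvd.mul_left (List.dvd_prod he) h)
      rw [hbs, List.map_append, List.prod_append, List.map_replicate, List.prod_replicate, one_pow,
        C_1] at this
      exact this
    have e4 := mul_dvd_mul (mul_dvd_mul e1 e3) e2
    refine e4.trans (dvd_of_eq ?_)
    ring
  have hkill : act (((X - 1) * P) * (X ^ h - 1) : A[X]) g = 0 := by
    rw [act_mul, act_mul]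
    exact h4
  have h5 := act_dvd hdvd hkill
  funext m
  rw [← Cas_act_expand d c g _ m, h5]
  rfl

end Pool.Agent.CAM
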