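import Pool.Agent.CAM.Mxe

set_option autoImplicit false

/-! Module Clo: closure principle and the passage from a dense class to all bounded functions.
`clo`: choose `g_j` with `∫ |f - g_j| ≤ 4^(-j)`; by `max_erg` (with `|f - g_j|`, `l = 2^(-j)`) the set
`B_j = {x | ∃ N, 2^(-j) N < ∑_{n<N} |f - g_j|(T^n x)}` has measure `≤ 2^(-j)`; Borel-Cantelli (`measure_limsup_atTop_eq_zero`): a.e. `x` is
in finitely many `B_j`.  For such an `x` (and outside the null sets for the `g_j`), for `j` large and all `N`: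
`|ces (f(T^n x) w n x) N - ces (g_j (T^n x) w n x) N| ≤ C 2^(-j)`, and the second one converges, so the first is Cauchy.
(No measurability of `w` is needed.)
`cv_add`, `cv_smul`: linearity.
`mult`: for finite sets `s` of indices prove: if `f i ∈ Φ` for `i ∉ s` and `f i` bounded measurable for `i ∈ s` then convergence a.e.
Induction on `s` (`Finset.induction_on`); step `insert j s`: `clo` with `T j`, `f = f j`, `w n x = ∏_{i ≠ j} f i (T_i^n x)`; `g ∈ span Φ`:
`Submodule.span_induction` (for `g ∈ Φ` use the induction hypothesis for `Function.update f j g`). -/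

open Finset Filter Topology MeasureTheory

namespace Pool.Agent.CAM

theorem cv_add {s t : ℕ → ℂ} (hs : Cv s) (ht : Cv t) : Cv (fun n => s n + t n) := by
  obtain ⟨L, hL⟩ := hs
  obtain ⟨M, hM⟩ := ht
  refine ⟨L + M, (hL.add hM).congr fun N => ?_⟩
  simp only [ces, Finset.sum_add_distrib, mul_add]

theorem cv_smul {s : ℕ → ℂ} (c : ℂ) (hs : Cv s) : Cv (fun n => c * s n) := by
  obtain ⟨L, hL⟩ := hs
  refine ⟨c * L, (hL.const_mul c).congr fun N => ?_⟩
  simp only [ces, ← Finset.mul_sum]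
  ring

theorem Clo_zero : Cv (fun _ => (0 : ℂ)) := by
  refine ⟨0, tendsto_const_nhds.congr fun N => ?_⟩
  simp [ces]

theorem Clo_approx {s : ℕ → ℂ}
    (h : ∀ ε : ℝ, 0 < ε → ∃ t : ℕ → ℂ, Cv t ∧ ∀ N, ‖ces s N - ces t N‖ ≤ ε) : Cv s := by
  refine cauchySeq_tendsto_of_complete ?_
  rw [Metric.cauchySeq_iff']
  intro ε hε
  obtain ⟨t, ⟨L, hL⟩, ht⟩ := h (ε / 4) (by positivity)
  obtain ⟨N₀, hN₀⟩ := (Metric.cauchySeq_iff'.mp hL.cauchySeq) (ε / 4) (by positivity)
  refine ⟨N₀, fun n hn => ?_⟩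
  have h1 := ht n
  have h2 := ht N₀
  have h3 := hN₀ n hn
  rw [dist_eq_norm] at h3 ⊢
  calc ‖ces s n - ces s N₀‖ = ‖(ces s n - ces t n) + (ces t n - ces t N₀) - (ces s N₀ - ces t N₀)‖ := by
        congr 1; ring
    _ ≤ ‖ces s n - ces t n‖ + ‖ces t n - ces t N₀‖ + ‖ces s N₀ - ces t N₀‖ :=
        (norm_sub_le _ _).trans (add_le_add_left (norm_add_le _ _) _)
    _ < ε := by linarith

theorem Clo_ces_le (f g w : ℕ → ℂ) (C l : ℝ) (hC : 0 ≤ C) (hw : ∀ n, ‖w n‖ ≤ C) (hl : 0 ≤ l) (N : ℕ)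
    (h : ∑ n ∈ range N, ‖f n - g n‖ ≤ l * N) :
    ‖ces (fun n => f n * w n) N - ces (fun n => g n * w n) N‖ ≤ C * l := by
  rcases Nat.eq_zero_or_pos N with rfl | hN
  · simp only [ces, Finset.range_zero, Finset.sum_empty, mul_zero, sub_zero, norm_zero]
    positivity
  · have hN' : (0 : ℝ) < N := by exact_mod_cast hN
    have e : ces (fun n => f n * w n) N - ces (fun n => g n * w n) N
        = (1 / (N : ℂ)) * ∑ n ∈ range N, (f n - g n) * w n := by
      simp only [ces, sub_mul, Finset.sum_sub_distrib, mul_sub]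
    rw [e, norm_mul, norm_div, norm_one, Complex.norm_natCast]
    have h2 : ‖∑ n ∈ range N, (f n - g n) * w n‖ ≤ (l * N) * C := by
      calc ‖∑ n ∈ range N, (f n - g n) * w n‖ ≤ ∑ n ∈ range N, ‖(f n - g n) * w n‖ :=
            norm_sum_le _ _
        _ ≤ ∑ n ∈ range N, ‖f n - g n‖ * C := by
            refine Finset.sum_le_sum fun n _ => ?_
            rw [norm_mul]
            exact mul_le_mul_of_nonneg_left (hw n) (norm_nonneg _)
        _ = (∑ n ∈ range N, ‖f n - g n‖) * C := by rw [Finset.sum_mul]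
        _ ≤ (l * N) * C := mul_le_mul_of_nonneg_right h hC
    calc 1 / (N : ℝ) * ‖∑ n ∈ range N, (f n - g n) * w n‖ ≤ 1 / (N : ℝ) * ((l * N) * C) :=
          mul_le_mul_of_nonneg_left h2 (by positivity)
      _ = C * l := by field_simp

theorem clo {Ω : Type*} [MeasurableSpace Ω] (μ : Measure Ω) [IsProbabilityMeasure μ] (T : Ω → Ω)
    (hT : MeasurePreserving T μ μ) (w : ℕ → Ω → ℂ) (C : ℝ) (hw : ∀ n x, ‖w n x‖ ≤ C) (f : Ω → ℂ)
    (hfm : Measurable f) (hf : Integrable f μ)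
    (h : ∀ ε : ℝ, 0 < ε → ∃ g : Ω → ℂ, Measurable g ∧ Integrable g μ ∧ ∫ x, ‖f x - g x‖ ∂μ ≤ ε ∧
      ∀ᵐ x ∂μ, Cv (fun n => g (T^[n] x) * w n x)) :
    ∀ᵐ x ∂μ, Cv (fun n => f (T^[n] x) * w n x) := by
  have h4 : ∀ j : ℕ, ∃ g : Ω → ℂ, Measurable g ∧ Integrable g μ ∧
      ∫ x, ‖f x - g x‖ ∂μ ≤ (1 / 2 : ℝ) ^ j * (1 / 2 : ℝ) ^ j ∧
      ∀ᵐ x ∂μ, Cv (fun n => g (T^[n] x) * w n x) := fun j => h _ (by positivity)
  choose g hgm hgi hgε hgc using h4
  let B : ℕ → Set Ω := fun j =>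
    {x | ∃ N : ℕ, (1 / 2 : ℝ) ^ j * N < ∑ n ∈ range N, ‖f (T^[n] x) - g j (T^[n] x)‖}
  have hB : ∀ j, μ (B j) ≤ ENNReal.ofReal ((1 / 2 : ℝ) ^ j) := by
    intro j
    have hm : Measurable (fun x => ‖f x - g j x‖) := (hfm.sub (hgm j)).norm
    have hi : Integrable (fun x => ‖f x - g j x‖) μ := (hf.sub (hgi j)).norm
    have h1 := max_erg μ T hT (fun x => ‖f x - g j x‖) (fun x => norm_nonneg _) hm hi
      ((1 / 2 : ℝ) ^ j) (by positivity)
    refine h1.trans (ENNReal.ofReal_le_ofReal ?_)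
    rw [div_le_iff₀ (by positivity)]
    exact hgε j
  have hsum : ∑' j, μ (B j) ≠ ⊤ := by
    refine ne_top_of_le_ne_top ?_ (ENNReal.tsum_le_tsum hB)
    rw [← ENNReal.ofReal_tsum_of_nonneg (fun j => by positivity) summable_geometric_two]
    exact ENNReal.ofReal_ne_top
  have hBC := ae_eventually_notMem hsum
  have hC : ∀ᵐ x ∂μ, ∀ j, Cv (fun n => g j (T^[n] x) * w n x) := ae_all_iff.mpr hgc
  filter_upwards [hBC, hC] with x hx hxc
  have hC0 : 0 ≤ C := (norm_nonneg _).trans (hw 0 x)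
  refine Clo_approx fun ε hε => ?_
  have hlim : Tendsto (fun j : ℕ => C * (1 / 2 : ℝ) ^ j) atTop (𝓝 0) := by
    simpa using (tendsto_pow_atTop_nhds_zero_of_lt_one (by norm_num : (0 : ℝ) ≤ 1 / 2)
      (by norm_num)).const_mul C
  obtain ⟨j, hj1, hj2⟩ := ((hlim.eventually (gt_mem_nhds hε)).and hx).exists
  refine ⟨_, hxc j, fun N => ?_⟩
  refine le_trans ?_ hj1.le
  refine Clo_ces_le (fun n => f (T^[n] x)) (fun n => g j (T^[n] x)) (fun n => w n x) C
    ((1 / 2 : ℝ) ^ j) hC0 (fun n => hw n x) (by positivity) N ?_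
  by_contra hcon
  exact hj2 ⟨N, not_le.mp hcon⟩

theorem mult {Ω : Type*} [MeasurableSpace Ω] (μ : Measure Ω) [IsProbabilityMeasure μ] {k : ℕ}
    (T : Fin k → Ω → Ω) (hT : ∀ i, MeasurePreserving (T i) μ μ) (Φ : Set (Ω → ℂ))
    (hΦm : ∀ φ ∈ Φ, Measurable φ) (hΦb : ∀ φ ∈ Φ, ∃ C : ℝ, ∀ x, ‖φ x‖ ≤ C)
    (hdense : ∀ f : Ω → ℂ, Measurable f → Integrable f μ → ∀ ε : ℝ, 0 < ε →
      ∃ g ∈ Submodule.span ℂ Φ, ∫ x, ‖f x - g x‖ ∂μ ≤ ε)
    (hΦ : ∀ φ : Fin k → Ω → ℂ, (∀ i, φ i ∈ Φ) → ∀ᵐ x ∂μ, Cv (fun n => ∏ i, φ i ((T i)^[n] x)))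
    (f : Fin k → Ω → ℂ) (hf : ∀ i, Measurable (f i)) (hb : ∀ i, ∃ C : ℝ, ∀ x, ‖f i x‖ ≤ C) :
    ∀ᵐ x ∂μ, Cv (fun n => ∏ i, f i ((T i)^[n] x)) := by
  have main : ∀ s : Finset (Fin k), ∀ f : Fin k → Ω → ℂ, (∀ i, i ∉ s → f i ∈ Φ) →
      (∀ i ∈ s, Measurable (f i) ∧ ∃ C : ℝ, ∀ x, ‖f i x‖ ≤ C) →
      ∀ᵐ x ∂μ, Cv (fun n => ∏ i, f i ((T i)^[n] x)) := by
    intro s
    induction s using Finset.induction_on with
    | empty =>
      intro f hf _
      exact hΦ f fun i => hf i (Finset.notMem_empty i)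
    | insert j s hj ih =>
      intro f hfΦ hfs
      have hmb : ∀ i, Measurable (f i) ∧ ∃ C : ℝ, ∀ x, ‖f i x‖ ≤ C := by
        intro i
        by_cases hi : i ∈ insert j s
        · exact hfs i hi
        · exact ⟨hΦm _ (hfΦ i hi), hΦb _ (hfΦ i hi)⟩
      choose hm C hC using hmb
      set w : ℕ → Ω → ℂ := fun n x => ∏ i ∈ Finset.univ.erase j, f i ((T i)^[n] x) with hw
      have hprod : ∀ (g : Ω → ℂ) (n : ℕ) (x : Ω),
          ∏ i, (Function.update f j g) i ((T i)^[n] x) = g ((T j)^[n] x) * w n x := by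
        intro g n x
        rw [← Finset.mul_prod_erase Finset.univ _ (Finset.mem_univ j), Function.update_self, hw]
        congr 1
        refine Finset.prod_congr rfl fun i hi => ?_
        rw [Function.update_of_ne (Finset.ne_of_mem_erase hi)]
      have hwb : ∀ n x, ‖w n x‖ ≤ ∏ i ∈ Finset.univ.erase j, C i := by
        intro n x
        rw [hw, norm_prod]
        exact Finset.prod_le_prod (fun i _ => norm_nonneg _) fun i _ => hC i _
      have hint : ∀ g : Ω → ℂ, Measurable g → (∃ D : ℝ, ∀ x, ‖g x‖ ≤ D) → Integrable g μ := by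
        intro g hg ⟨D, hD⟩
        exact Integrable.of_bound hg.aestronglyMeasurable D (Eventually.of_forall hD)
      have hspan : ∀ g ∈ Submodule.span ℂ Φ, (Measurable g ∧ Integrable g μ) ∧
          ∀ᵐ x ∂μ, Cv (fun n => g ((T j)^[n] x) * w n x) := by
        intro g hg
        induction hg using Submodule.span_induction with
        | mem g hg =>
          refine ⟨⟨hΦm g hg, hint g (hΦm g hg) (hΦb g hg)⟩, ?_⟩
          have h1 := ih (Function.update f j g) ?_ ?_
          · filter_upwards [h1] with x hx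
            simpa only [hprod] using hx
          · intro i hi
            by_cases hij : i = j
            · subst hij
              rw [Function.update_self]
              exact hg
            · rw [Function.update_of_ne hij]
              exact hfΦ i fun hmem => (Finset.mem_insert.mp hmem).elim hij hi
          · intro i hi
            have hij : i ≠ j := fun e => hj (e ▸ hi)
            rw [Function.update_of_ne hij]
            exact hfs i (Finset.mem_insert_of_mem hi)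
        | zero =>
          refine ⟨⟨measurable_zero, integrable_zero _ _ _⟩, Eventually.of_forall fun x => ?_⟩
          simpa only [Pi.zero_apply, zero_mul] using Clo_zero
        | add g h _ _ hg hh =>
          refine ⟨⟨hg.1.1.add hh.1.1, hg.1.2.add hh.1.2⟩, ?_⟩
          filter_upwards [hg.2, hh.2] with x h1 h2
          simpa only [Pi.add_apply, add_mul] using cv_add h1 h2
        | smul c g _ hg =>
          refine ⟨⟨hg.1.1.const_smul c, hg.1.2.smul c⟩, ?_⟩
          filter_upwards [hg.2] with x h1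
          simpa only [Pi.smul_apply, smul_eq_mul, mul_assoc] using cv_smul c h1
      have hclo := clo μ (T j) (hT j) w _ hwb (f j) (hm j) (hint _ (hm j) ⟨C j, hC j⟩) ?_
      · filter_upwards [hclo] with x hx
        have e : (fun n => ∏ i, f i ((T i)^[n] x)) = fun n => f j ((T j)^[n] x) * w n x := by
          funext n
          have := hprod (f j) n x
          rwa [Function.update_eq_self] at this
        rw [e]
        exact hx
      · intro ε hε
        obtain ⟨g, hg, hgε⟩ := hdense (f j) (hm j) (hint _ (hm j) ⟨C j, hC j⟩) ε hε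
        obtain ⟨⟨h1, h2⟩, h3⟩ := hspan g hg
        exact ⟨g, h1, h2, hgε, h3⟩
  exact main Finset.univ f (fun i hi => absurd (Finset.mem_univ i) hi) fun i _ => ⟨hf i, hb i⟩

end Pool.Agent.CAM
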