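import Pool.Agent.CAM.Defs

set_option autoImplicit false

/-! Module Res: averages along residue classes.
`res`: write `N = d M + r`, `r < d`.  `∑_{n < d M} s n = ∑_{c < d} ∑_{m < M} s (c + d m)`, so `ces s (d M) = (1/d) ∑_c ces (s (c + d ·)) M`
converges to `L = (1/d) ∑_c L_c`; the last `r` terms contribute at most `r / N → 0`. -/

open Finset Filter Topology

namespace Pool.Agent.CAM

theorem Res_block (s : ℕ → ℂ) (d M : ℕ) :
    ∑ n ∈ range (d * M), s n = ∑ c ∈ range d, ∑ m ∈ range M, s (c + d * m) := by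
  induction M with
  | zero => simp
  | succ M ih =>
    rw [Nat.mul_succ, Finset.sum_range_add, ih, ← Finset.sum_add_distrib]
    refine Finset.sum_congr rfl fun c _ => ?_
    rw [Finset.sum_range_succ, add_comm c (d * M)]

theorem Res_ces (s : ℕ → ℂ) (d M : ℕ) (hd : 1 ≤ d) :
    ces s (d * M) = (1 / (d : ℂ)) * ∑ c ∈ range d, ces (fun m => s (c + d * m)) M := by
  unfold ces
  rw [Res_block, ← Finset.mul_sum]
  push_cast
  have : (d : ℂ) ≠ 0 := by
    have : d ≠ 0 := by omega
    exact_mod_cast this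
  rcases Nat.eq_zero_or_pos M with rfl | hM
  · simp
  have hM' : (M : ℂ) ≠ 0 := by
    have : M ≠ 0 := by omega
    exact_mod_cast this
  field_simp

theorem Res_close (s : ℕ → ℂ) (hs : ∀ n, ‖s n‖ ≤ 1) (d N : ℕ) (hd : 1 ≤ d) :
    ‖ces s N - ces s (d * (N / d))‖ ≤ 2 * d / N := by
  rcases Nat.eq_zero_or_pos N with rfl | hN
  · simp
  have hN' : (0 : ℝ) < N := by exact_mod_cast hN
  set K := d * (N / d) with hK
  have hKN : K + N % d = N := by
    rw [hK]
    exact Nat.div_add_mod N d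
  have hr : N % d < d := Nat.mod_lt _ (by omega)
  have e1 : ∑ n ∈ range N, s n = ∑ n ∈ range K, s n + ∑ x ∈ range (N % d), s (K + x) := by
    conv_lhs => rw [← hKN]
    rw [Finset.sum_range_add]
  have hKs : ‖∑ n ∈ range K, s n‖ ≤ K := by
    refine (norm_sum_le _ _).trans ?_
    calc ∑ n ∈ range K, ‖s n‖ ≤ ∑ n ∈ range K, (1 : ℝ) := Finset.sum_le_sum fun n _ => hs n
      _ = K := by simp
  have hrs : ‖∑ x ∈ range (N % d), s (K + x)‖ ≤ d := by
    refine (norm_sum_le _ _).trans ?_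
    calc ∑ x ∈ range (N % d), ‖s (K + x)‖ ≤ ∑ n ∈ range (N % d), (1 : ℝ) :=
          Finset.sum_le_sum fun n _ => hs _
      _ = (N % d : ℕ) := by simp
      _ ≤ d := by exact_mod_cast hr.le
  rcases Nat.eq_zero_or_pos K with hK0 | hK0
  · have : ces s K = 0 := by rw [hK0]; simp [ces]
    rw [this, sub_zero]
    unfold ces
    rw [norm_mul, e1, hK0]
    have h5 : ‖(1 / (N : ℂ))‖ = 1 / N := by simp
    rw [h5]
    simp only [Finset.range_zero, Finset.sum_empty, zero_add]
    rw [hK0] at hrs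
    simp only [zero_add] at hrs
    calc 1 / (N : ℝ) * ‖∑ x ∈ range (N % d), s x‖ ≤ 1 / N * d := by gcongr
      _ ≤ 2 * d / N := by
        rw [one_div, inv_mul_eq_div]
        gcongr
        linarith [(Nat.cast_nonneg d : (0:ℝ) ≤ d)]
  · have hK1 : (0 : ℝ) < K := by exact_mod_cast hK0
    have hKc : (K : ℂ) ≠ 0 := by
      have : K ≠ 0 := by omega
      exact_mod_cast this
    have hNc : (N : ℂ) ≠ 0 := by
      have : N ≠ 0 := by omega
      exact_mod_cast this
    have e2 : ces s N - ces s K = (1 / (N : ℂ)) * ((∑ x ∈ range (N % d), s (K + x)) -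
        (((N % d : ℕ) : ℂ) / K) * ∑ n ∈ range K, s n) := by
      unfold ces
      rw [e1]
      have : ((N % d : ℕ) : ℂ) = N - K := by
        have h := congrArg (fun x : ℕ => (x : ℂ)) hKN
        simp only [Nat.cast_add] at h
        linear_combination h
      rw [this]
      field_simp
      ring
    rw [e2, norm_mul]
    have h5 : ‖(1 / (N : ℂ))‖ = 1 / N := by simp
    rw [h5]
    have h6 : ‖((N % d : ℕ) : ℂ) / K * ∑ n ∈ range K, s n‖ ≤ d := by
      rw [norm_mul, norm_div]
      simp only [Complex.norm_natCast]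
      calc ((N % d : ℕ) : ℝ) / K * ‖∑ n ∈ range K, s n‖ ≤ ((N % d : ℕ) : ℝ) / K * K := by gcongr
        _ = ((N % d : ℕ) : ℝ) := by field_simp
        _ ≤ d := by exact_mod_cast hr.le
    calc 1 / (N : ℝ) * ‖(∑ x ∈ range (N % d), s (K + x)) -
        (((N % d : ℕ) : ℂ) / K) * ∑ n ∈ range K, s n‖ ≤ 1 / N * (d + d) := by
          gcongr
          exact (norm_sub_le _ _).trans (add_le_add hrs h6)
      _ = 2 * d / N := by ring

theorem res (s : ℕ → ℂ) (hs : ∀ n, ‖s n‖ ≤ 1) (d : ℕ) (hd : 1 ≤ d)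
    (h : ∀ c < d, Cv (fun m => s (c + d * m))) : Cv s := by
  choose! L hL using h
  refine ⟨(1 / (d : ℂ)) * ∑ c ∈ range d, L c, ?_⟩
  have h1 : Tendsto (fun M => ces s (d * M)) atTop (𝓝 ((1 / (d : ℂ)) * ∑ c ∈ range d, L c)) := by
    simp_rw [Res_ces s d _ hd]
    refine Tendsto.const_mul _ ?_
    exact tendsto_finsetSum _ fun c hc => hL c (Finset.mem_range.mp hc)
  have h2 : Tendsto (fun N : ℕ => N / d) atTop atTop := Nat.tendsto_div_const_atTop (by omega)
  have h3 := h1.comp h2
  have h4 : Tendsto (fun N => ces s N - ces s (d * (N / d))) atTop (𝓝 0) := by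
    refine squeeze_zero_norm (fun N => Res_close s hs d N hd) ?_
    exact tendsto_const_div_atTop_nhds_zero_nat _
  have h5 := h4.add h3
  simpa using h5

end Pool.Agent.CAM
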