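import Pool.Agent.CAM.Vdc
import Pool.Agent.CAM.Res

set_option autoImplicit false

/-! Module Pha: Cesàro averages of polynomial phases converge (Weyl).
`dl s n = s (n+1) / s n` (in the commutative group `Circle`).
(0) If `dl^[q] s = 1` for `q ≤ 1` then `s` is constant.  If `dl^[q] s` is the constant `z` then `dl^[q+1] s = 1`.
(1) `pha_zero`: if `dl^[q] s = const z`, `q ≥ 1`, and `z` is not a root of unity, then `ces s → 0`.
  Induction on `q`.  `q = 1`: `s n = s 0 * z^n`, geometric sum, `|∑| ≤ 2/|1 - z|`.  `q + 1`: for `h ≥ 1` the sequence `t n = s (n+h)/s n`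
  `= ∏_{i<h} (dl s)(n+i)`; `dl^[q] t = ∏_{i<h} (dl^[q+1] s)(n+i) = z^h` (`dl` is multiplicative and commutes with shifts), not a root of
  unity; so `ces t → 0` and `vdc`.  (`conj (s n) = 1/(s n)` in `Circle`.)
(2) `pha`: if `dl^[q] s = 1` then `Cv s`.  Induction on `q`.  `q = 0`: `s = 1`.  `q + 1`: `dl (dl^[q] s) = 1`, so `dl^[q] s` is a constant `z`.
  If `z` is not a root of unity (and `q ≥ 1`; for `q = 0` `s` is constant) use (1).  If `z^d = 1`, `d ≥ 1`: for `c < d`, `t m = s (c + d m)` satisfies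
  `dl^[q] t = z^(d^q) = 1` when `q ≥ 1`: (by induction: if `dl^[q] s = z` then `dl^[q] (s (c + d ·)) = z^(d^q)`:
  `dl (s (c + d ·)) m = ∏_{i<d} (dl s)(c + d m + i)`, a product of `d` sequences of the same kind with `q - 1`), so `Cv t` by induction; then `res`. -/

open Finset Filter Topology

namespace Pool.Agent.CAM

/-- multiplicative difference -/
noncomputable def dl (s : ℕ → Circle) : ℕ → Circle := fun n => s (n + 1) / s n

theorem Pha_mul (s t : ℕ → Circle) : dl (s * t) = dl s * dl t := by
  funext n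
  simp only [dl, Pi.mul_apply]
  exact mul_div_mul_comm _ _ _ _

theorem Pha_one : dl 1 = 1 := by
  funext n
  simp [dl]

theorem Pha_prod1 {ι : Type} (I : Finset ι) (s : ι → ℕ → Circle) :
    dl (∏ i ∈ I, s i) = ∏ i ∈ I, dl (s i) := by
  classical
  induction I using Finset.induction_on with
  | empty => rw [prod_empty, prod_empty, Pha_one]
  | insert a I ha ih => rw [prod_insert ha, prod_insert ha, Pha_mul, ih]

theorem Pha_prod {ι : Type} (q : ℕ) (I : Finset ι) (s : ι → ℕ → Circle) :
    dl^[q] (∏ i ∈ I, s i) = ∏ i ∈ I, dl^[q] (s i) := by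
  induction q generalizing s with
  | zero => rfl
  | succ q ih =>
    rw [Function.iterate_succ_apply, Pha_prod1, ih]
    rfl

theorem Pha_shift (q : ℕ) (s : ℕ → Circle) (i : ℕ) :
    dl^[q] (fun n => s (n + i)) = fun n => (dl^[q] s) (n + i) := by
  induction q generalizing s with
  | zero => rfl
  | succ q ih =>
    rw [Function.iterate_succ_apply, Function.iterate_succ_apply, ← ih (dl s)]
    congr 1
    funext n
    simp only [dl]
    congr 2
    omega

/-- `s (n + h) / s n = ∏_{i < h} dl s (n + i)` -/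
theorem Pha_tele (s : ℕ → Circle) (n h : ℕ) : s (n + h) / s n = ∏ i ∈ range h, dl s (n + i) := by
  induction h with
  | zero => simp
  | succ h ih =>
    rw [prod_range_succ, ← ih]
    simp only [dl]
    rw [← add_assoc]
    rw [div_mul_div_comm, mul_comm (s n) (s (n + h)), mul_div_mul_left_eq_div]

theorem Pha_tele_iter (q : ℕ) (s : ℕ → Circle) (z : Circle) (h : ℕ)
    (hs : dl^[q + 1] s = fun _ => z) : dl^[q] (fun n => s (n + h) / s n) = fun _ => z ^ h := by
  have h1 : (fun n => s (n + h) / s n) = ∏ i ∈ range h, (fun n => dl s (n + i)) := by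
    funext n
    rw [Pha_tele, prod_apply]
  rw [h1, Pha_prod]
  have h2 : ∀ i ∈ range h, dl^[q] (fun n => dl s (n + i)) = fun _ => z := by
    intro i _
    rw [Pha_shift q (dl s) i, ← Function.iterate_succ_apply, hs]
  rw [prod_congr rfl h2]
  funext n
  rw [prod_apply]
  simp

theorem Pha_const_of_dl (s : ℕ → Circle) (h : dl s = 1) (n : ℕ) : s n = s 0 := by
  induction n with
  | zero => rfl
  | succ n ih =>
    have h1 := congr_fun h n
    simp only [dl, Pi.one_apply] at h1
    rw [div_eq_one] at h1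
    rw [h1, ih]

theorem Pha_geo (s : ℕ → Circle) (z : Circle) (hs : dl s = fun _ => z) (n : ℕ) : s n = s 0 * z ^ n := by
  induction n with
  | zero => simp
  | succ n ih =>
    have h1 := congr_fun hs n
    simp only [dl] at h1
    rw [div_eq_iff_eq_mul] at h1
    rw [h1, ih, pow_succ]
    rw [mul_comm, mul_assoc]

theorem Pha_norm (s : ℕ → Circle) (n : ℕ) : ‖((s n : Circle) : ℂ)‖ ≤ 1 := by
  rw [Circle.norm_coe]

theorem Pha_zero (q : ℕ) (s : ℕ → Circle) (z : Circle) (hs : dl^[q + 1] s = fun _ => z)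
    (hz : ∀ d : ℕ, 1 ≤ d → z ^ d ≠ 1) : Tendsto (ces (fun n => (s n : ℂ))) atTop (𝓝 0) := by
  induction q generalizing s z with
  | zero =>
    have h1 := Pha_geo s z hs
    have hz1 : (z : ℂ) ≠ 1 := by
      intro h
      apply hz 1 le_rfl
      rw [pow_one]
      exact Circle.ext h
    have hz2 : 0 < ‖(z : ℂ) - 1‖ := norm_pos_iff.2 (sub_ne_zero.2 hz1)
    have h2 : ∀ N : ℕ, ‖ces (fun n => (s n : ℂ)) N‖ ≤ (2 / ‖(z : ℂ) - 1‖) * (1 / (N : ℝ)) := by
      intro N
      have h5 : ‖(1 : ℂ) / (N : ℂ)‖ = 1 / (N : ℝ) := by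
        rw [norm_div, norm_one, Complex.norm_natCast]
      unfold ces
      rw [norm_mul, h5]
      have h3 : ∑ n ∈ range N, ((s n : Circle) : ℂ) = (s 0 : ℂ) * (((z : ℂ) ^ N - 1) / ((z : ℂ) - 1)) := by
        rw [← geom_sum_eq hz1, mul_sum]
        apply sum_congr rfl
        intro n _
        rw [h1 n, Circle.coe_mul, Circle.coe_pow]
      rw [h3, norm_mul, Circle.norm_coe, one_mul, norm_div]
      have h4 : ‖(z : ℂ) ^ N - 1‖ ≤ 2 := by
        calc ‖(z : ℂ) ^ N - 1‖ ≤ ‖(z : ℂ) ^ N‖ + ‖(1 : ℂ)‖ := norm_sub_le _ _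
          _ = 2 := by rw [norm_pow, Circle.norm_coe, one_pow, norm_one]; norm_num
      rw [mul_comm]
      apply mul_le_mul_of_nonneg_right _ (by positivity)
      exact div_le_div_of_nonneg_right h4 hz2.le
    apply squeeze_zero_norm h2
    rw [show (0 : ℝ) = (2 / ‖(z : ℂ) - 1‖) * 0 by ring]
    exact tendsto_one_div_atTop_nhds_zero_nat.const_mul _
  | succ q ih =>
    apply vdc _ (Pha_norm s)
    intro h hh
    have h1 := Pha_tele_iter (q + 1) s z h hs
    have h2 := ih (fun n => s (n + h) / s n) (z ^ h) h1 (by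
      intro d hd
      rw [← pow_mul]
      exact hz (h * d) (Nat.mul_pos hh hd))
    have h3 : (fun n => ((s (n + h) : Circle) : ℂ) * (starRingEnd ℂ) ((s n : Circle) : ℂ)) =
        (fun n => ((s (n + h) / s n : Circle) : ℂ)) := by
      funext n
      rw [div_eq_mul_inv, Circle.coe_mul, Circle.coe_inv_eq_conj]
    rw [h3]
    exact h2

theorem Pha_res (q : ℕ) (s : ℕ → Circle) (z : Circle) (d : ℕ) (hs : dl^[q] s = fun _ => z) (c : ℕ) :
    dl^[q] (fun m => s (c + d * m)) = fun _ => z ^ (d ^ q) := by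
  induction q generalizing s z c with
  | zero =>
    simp only [Function.iterate_zero, id_eq] at hs ⊢
    funext m
    rw [hs, pow_zero, pow_one]
  | succ q ih =>
    rw [Function.iterate_succ_apply]
    have h1 : dl (fun m => s (c + d * m)) = ∏ i ∈ range d, (fun m => dl s ((c + i) + d * m)) := by
      funext m
      rw [prod_apply]
      simp only [dl]
      have h2 := Pha_tele s (c + d * m) d
      rw [show c + d * (m + 1) = c + d * m + d by ring, h2]
      apply prod_congr rfl
      intro i _
      simp only [dl]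
      rw [show c + i + d * m = c + d * m + i by ring]
    rw [h1, Pha_prod]
    have h3 : ∀ i ∈ range d, dl^[q] (fun m => dl s ((c + i) + d * m)) = fun _ => z ^ (d ^ q) := by
      intro i _
      exact ih (dl s) z (by rw [← Function.iterate_succ_apply]; exact hs) (c + i)
    rw [prod_congr rfl h3]
    funext n
    rw [prod_apply]
    rw [prod_const, card_range, ← pow_mul, pow_succ]

theorem Pha_Cv_const (z : Circle) : Cv (fun _ => (z : ℂ)) := by
  refine ⟨(z : ℂ), ?_⟩
  apply tendsto_const_nhds.congr'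
  filter_upwards [eventually_gt_atTop 0] with N hN
  unfold ces
  rw [sum_const, card_range, nsmul_eq_mul, ← mul_assoc, one_div,
    inv_mul_cancel₀ (by exact_mod_cast hN.ne'), one_mul]

theorem pha (q : ℕ) (s : ℕ → Circle) (h : dl^[q] s = 1) : Cv (fun n => (s n : ℂ)) := by
  induction q generalizing s with
  | zero =>
    simp only [Function.iterate_zero, id_eq] at h
    rw [h]
    exact Pha_Cv_const 1
  | succ q ih =>
    have h1 : dl (dl^[q] s) = 1 := by
      have h0 := Function.iterate_succ_apply' dl q s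
      rw [← h0]
      exact h
    have h2 := Pha_const_of_dl _ h1
    set z := dl^[q] s 0 with hz
    have h3 : dl^[q] s = fun _ => z := funext h2
    rcases Nat.eq_zero_or_pos q with hq | hq
    · subst hq
      simp only [Function.iterate_zero, id_eq] at h3
      rw [h3]
      exact Pha_Cv_const z
    · by_cases hr : ∀ d : ℕ, 1 ≤ d → z ^ d ≠ 1
      · obtain ⟨r, rfl⟩ : ∃ r, q = r + 1 := ⟨q - 1, by omega⟩
        exact ⟨0, Pha_zero r s z h3 hr⟩
      · push Not at hr
        obtain ⟨d, hd, hzd⟩ := hr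
        apply res _ (Pha_norm s) d hd
        intro c _
        apply ih (fun m => s (c + d * m))
        rw [Pha_res q s z d h3 c]
        funext n
        obtain ⟨e, he⟩ : d ∣ d ^ q := dvd_pow_self d (by omega)
        rw [he, pow_mul, hzd, one_pow]
        rfl

end Pool.Agent.CAM
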