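import Pool.Agent.CAM.Defs

set_option autoImplicit false

/-! Module Edl: almost everywhere convergence from a power saving in `L²`.
`S_N(x) = ∑_{n < N} F n x`, `|F n x| ≤ 1`.  `∑_{j ≥ 1} ∫ |S_{j^m} / j^m|² ≤ C ∑ 1/j² < ∞`, so for a.e. `x` the series
`∑_j |S_{j^m}(x) / j^m|²` converges (`lintegral_tsum`, `ae_lt_top`) and `S_{j^m}(x)/j^m → 0`.
For `j^m ≤ N < (j+1)^m`: `|S_N| ≤ |S_{j^m}| + ((j+1)^m - j^m)`, divide by `N ≥ j^m`;
`((j+1)^m - j^m)/j^m → 0`.  (`j` exists: e.g. `j = Nat.findGreatest (fun j => j^m ≤ N) N`.) -/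

open Finset Filter Topology MeasureTheory

namespace Pool.Agent.CAM

theorem ces_tendsto_of_pow (s : ℕ → ℂ) (hs : ∀ n, ‖s n‖ ≤ 1) (m : ℕ) (hm : 1 ≤ m)
    (h : Tendsto (fun j : ℕ => ces s (j ^ m)) atTop (𝓝 0)) : Tendsto (ces s) atTop (𝓝 0) := by
  classical
  have hm0 : m ≠ 0 := by omega
  let J : ℕ → ℕ := fun N => Nat.findGreatest (fun j => j ^ m ≤ N) N
  have hJ1 : ∀ N, J N ^ m ≤ N := by
    intro N
    have : (fun j => j ^ m ≤ N) (J N) := by
      apply Nat.findGreatest_spec (P := fun j => j ^ m ≤ N) (Nat.zero_le N)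
      beta_reduce
      rw [zero_pow hm0]
      exact Nat.zero_le _
    exact this
  have hJ2 : ∀ N, N < (J N + 1) ^ m := by
    intro N
    by_cases h1 : J N + 1 ≤ N
    · have h2 := Nat.findGreatest_is_greatest (P := fun j => j ^ m ≤ N) (n := N) (Nat.lt_succ_self (J N)) h1
      beta_reduce at h2
      exact not_le.mp h2
    · have h3 : J N + 1 ≤ (J N + 1) ^ m := Nat.le_self_pow hm0 _
      omega
  have hJ3 : Tendsto J atTop atTop := by
    rw [tendsto_atTop]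
    intro b
    filter_upwards [eventually_ge_atTop (b ^ m)] with N hN
    exact Nat.le_findGreatest (P := fun j => j ^ m ≤ N) ((Nat.le_self_pow hm0 b).trans hN) hN
  have hlim1 : Tendsto (fun N => ‖ces s (J N ^ m)‖) atTop (𝓝 0) := by
    have h4 := (h.comp hJ3).norm
    rw [norm_zero] at h4
    exact h4
  have hlim2 : Tendsto (fun N => (1 + 1 / (J N : ℝ)) ^ m - 1) atTop (𝓝 0) := by
    have h5 : Tendsto (fun j : ℕ => (1 + 1 / (j : ℝ)) ^ m - 1) atTop (𝓝 ((1 + 0) ^ m - 1)) :=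
      ((tendsto_const_nhds.add tendsto_one_div_atTop_nhds_zero_nat).pow m).sub tendsto_const_nhds
    have h6 : ((1 : ℝ) + 0) ^ m - 1 = 0 := by simp
    rw [h6] at h5
    exact h5.comp hJ3
  have hlim := hlim1.add hlim2
  rw [add_zero] at hlim
  apply squeeze_zero_norm' _ hlim
  filter_upwards [hJ3.eventually_ge_atTop 1, eventually_ge_atTop 1] with N hN hN1
  set j := J N with hj
  have hj1 := hJ1 N
  have hj2 := hJ2 N
  rw [← hj] at hj1 hj2
  have hjp : (0 : ℝ) < (j : ℝ) ^ m := by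
    have : (0 : ℝ) < j := by exact_mod_cast hN
    positivity
  have hNp : (0 : ℝ) < (N : ℝ) := by exact_mod_cast hN1
  have hjN : ((j : ℝ)) ^ m ≤ N := by exact_mod_cast hj1
  have hNj : (N : ℝ) ≤ ((j : ℝ) + 1) ^ m := by exact_mod_cast hj2.le
  have h7 : ‖∑ n ∈ range N, s n‖ ≤ ‖∑ n ∈ range (j ^ m), s n‖ + (N - (j : ℝ) ^ m) := by
    rw [← sum_range_add_sum_Ico s hj1]
    refine (norm_add_le _ _).trans ?_
    have h8 : ‖∑ n ∈ Ico (j ^ m) N, s n‖ ≤ (N : ℝ) - (j : ℝ) ^ m := by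
      refine (norm_sum_le_of_le (Ico (j ^ m) N) (fun n _ => hs n)).trans ?_
      rw [sum_const, Nat.card_Ico, nsmul_eq_mul, mul_one, Nat.cast_sub hj1]
      push_cast
      exact le_rfl
    linarith
  have h9 : ‖ces s (j ^ m)‖ = ‖∑ n ∈ range (j ^ m), s n‖ / (j : ℝ) ^ m := by
    unfold ces
    rw [norm_mul]
    have : ‖(1 / ((j ^ m : ℕ) : ℂ))‖ = 1 / (j : ℝ) ^ m := by
      rw [norm_div, norm_one, Complex.norm_natCast]
      push_cast
      rfl
    rw [this]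
    ring
  have h10 : ‖ces s N‖ = ‖∑ n ∈ range N, s n‖ / (N : ℝ) := by
    unfold ces
    rw [norm_mul, norm_div, norm_one, Complex.norm_natCast]
    ring
  rw [h9, h10]
  have h11 : (1 + 1 / (j : ℝ)) ^ m - 1 = (((j : ℝ) + 1) ^ m - (j : ℝ) ^ m) / (j : ℝ) ^ m := by
    have hj0 : (j : ℝ) ≠ 0 := by
      have : (0 : ℝ) < j := by exact_mod_cast hN
      exact this.ne'
    rw [sub_div, div_self hjp.ne', ← div_pow, add_div, div_self hj0]
  rw [h11, ← add_div, div_le_div_iff₀ hNp hjp]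
  have h12 := norm_nonneg (∑ n ∈ range (j ^ m), s n)
  have h13 : 0 ≤ ‖∑ n ∈ range (j ^ m), s n‖ + (((j : ℝ) + 1) ^ m - (j : ℝ) ^ m) := by linarith
  calc ‖∑ n ∈ range N, s n‖ * (j : ℝ) ^ m
      ≤ (‖∑ n ∈ range (j ^ m), s n‖ + (((j : ℝ) + 1) ^ m - (j : ℝ) ^ m)) * (j : ℝ) ^ m := by
        apply mul_le_mul_of_nonneg_right _ hjp.le
        linarith
    _ ≤ (‖∑ n ∈ range (j ^ m), s n‖ + (((j : ℝ) + 1) ^ m - (j : ℝ) ^ m)) * N :=
        mul_le_mul_of_nonneg_left hjN h13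

theorem ae_of_l2 {Ω : Type*} [MeasurableSpace Ω] (μ : Measure Ω) [IsProbabilityMeasure μ]
    (F : ℕ → Ω → ℂ) (hm : ∀ n, AEStronglyMeasurable (F n) μ) (hF : ∀ n x, ‖F n x‖ ≤ 1)
    (m : ℕ) (hm1 : 1 ≤ m) (C : ℝ)
    (h : ∀ j : ℕ, 1 ≤ j → ∫ x, ‖∑ n ∈ range (j ^ m), F n x‖ ^ 2 ∂μ ≤ C * ((j : ℝ) ^ m) ^ 2 / (j : ℝ) ^ 2) :
    ∀ᵐ x ∂μ, Tendsto (ces (fun n => F n x)) atTop (𝓝 0) := by
  classical
  let G : ℕ → Ω → ℝ := fun j x => ‖∑ n ∈ range ((j + 1) ^ m), F n x‖ ^ 2 / (((j : ℝ) + 1) ^ m) ^ 2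
  have hGm : ∀ j, AEStronglyMeasurable (G j) μ := by
    intro j
    have h1 : AEStronglyMeasurable (fun x => ∑ n ∈ range ((j + 1) ^ m), F n x) μ :=
      Finset.aestronglyMeasurable_fun_sum _ (fun n _ => hm n)
    have h2 : AEStronglyMeasurable (fun x => ‖∑ n ∈ range ((j + 1) ^ m), F n x‖ ^ 2) μ := h1.norm.pow 2
    have h3 := h2.mul_const ((((j : ℝ) + 1) ^ m) ^ 2)⁻¹
    simp only [G, div_eq_mul_inv]
    exact h3
  have hG0 : ∀ j x, 0 ≤ G j x := fun j x => by positivity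
  have hG1 : ∀ j x, G j x ≤ 1 := by
    intro j x
    have h2 : ‖∑ n ∈ range ((j + 1) ^ m), F n x‖ ≤ ((j : ℝ) + 1) ^ m := by
      refine (norm_sum_le_of_le _ (fun n _ => hF n x)).trans ?_
      simp
    have h3 : (0 : ℝ) < (((j : ℝ) + 1) ^ m) ^ 2 := by positivity
    simp only [G]
    rw [div_le_one h3]
    exact pow_le_pow_left₀ (norm_nonneg _) h2 2
  have hGi : ∀ j, Integrable (G j) μ := by
    intro j
    apply Integrable.of_bound (hGm j) 1
    filter_upwards with x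
    rw [Real.norm_eq_abs, abs_of_nonneg (hG0 j x)]
    exact hG1 j x
  have hGint : ∀ j, ∫ x, G j x ∂μ ≤ |C| / ((j : ℝ) + 1) ^ 2 := by
    intro j
    have h4 := h (j + 1) (by omega)
    simp only [G]
    rw [integral_div]
    have h5 : (0 : ℝ) < (((j : ℝ) + 1) ^ m) ^ 2 := by positivity
    rw [div_le_iff₀ h5]
    refine h4.trans ?_
    push_cast
    have h6 : (0 : ℝ) < ((j : ℝ) + 1) ^ 2 := by positivity
    rw [div_mul_eq_mul_div]
    apply div_le_div_of_nonneg_right _ h6.le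
    exact mul_le_mul_of_nonneg_right (le_abs_self C) h5.le
  have hsum : ∫⁻ x, ∑' j, ENNReal.ofReal (G j x) ∂μ ≠ ⊤ := by
    rw [lintegral_tsum (fun j => (hGm j).aemeasurable.ennreal_ofReal)]
    have h7 : ∀ j, ∫⁻ x, ENNReal.ofReal (G j x) ∂μ ≤ ENNReal.ofReal (|C| / ((j : ℝ) + 1) ^ 2) := by
      intro j
      rw [← ofReal_integral_eq_lintegral_ofReal (hGi j) (Eventually.of_forall (hG0 j))]
      exact ENNReal.ofReal_le_ofReal (hGint j)
    have h8 : Summable (fun j : ℕ => |C| / ((j : ℝ) + 1) ^ 2) := by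
      have h9 : Summable (fun j : ℕ => |C| * (1 / ((j : ℝ)) ^ 2)) :=
        (Real.summable_one_div_nat_pow.mpr (by norm_num)).mul_left |C|
      have h10 := (summable_nat_add_iff 1).mpr h9
      refine h10.congr ?_
      intro j
      push_cast
      ring
    exact ne_top_of_le_ne_top h8.tsum_ofReal_ne_top (ENNReal.tsum_le_tsum h7)
  have hmeas : AEMeasurable (fun x => ∑' j, ENNReal.ofReal (G j x)) μ :=
    AEMeasurable.tsum (fun j => (hGm j).aemeasurable.ennreal_ofReal)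
  filter_upwards [ae_lt_top' hmeas hsum] with x hx
  apply ces_tendsto_of_pow _ (fun n => hF n x) m hm1
  have h11 := ENNReal.tendsto_atTop_zero_of_tsum_ne_top hx.ne
  have h12 : Tendsto (fun j => G j x) atTop (𝓝 0) := by
    have h13 := (ENNReal.tendsto_toReal ENNReal.zero_ne_top).comp h11
    rw [ENNReal.toReal_zero] at h13
    refine h13.congr ?_
    intro j
    simp only [Function.comp]
    rw [ENNReal.toReal_ofReal (hG0 j x)]
  have h14 : Tendsto (fun j => Real.sqrt (G j x)) atTop (𝓝 0) := by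
    have h15 := (Real.continuous_sqrt.tendsto 0).comp h12
    rw [Real.sqrt_zero] at h15
    exact h15
  rw [← tendsto_add_atTop_iff_nat 1, tendsto_zero_iff_norm_tendsto_zero]
  refine h14.congr ?_
  intro j
  simp only [G]
  rw [← div_pow, Real.sqrt_sq (by positivity)]
  unfold ces
  rw [norm_mul]
  have : ‖(1 / (((j + 1) ^ m : ℕ) : ℂ))‖ = 1 / ((j : ℝ) + 1) ^ m := by
    rw [norm_div, norm_one, Complex.norm_natCast]
    push_cast
    rfl
  rw [this]
  ring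

end Pool.Agent.CAM
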