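import Pool.Agent.CAM.Cube
import Pool.Agent.CAM.Edl

set_option autoImplicit false

/-! Module Spr: few coincidences imply almost everywhere convergence to `0`.
`Co n m` symmetric-type relation; if `¬ Co n m` then `F n ⟂ F m`.  For every `h ≥ 1` the set `E_h = {n : Co (n + h) n}`
contains no cube of dimension `D + 1`, so `|E_h ∩ [0, N)|^(2^D) ≤ C N^(2^D - 1)` (`cube_count`, applied to
`A = E_h ∩ [0, N)`, `HasCube.mono`).  With `M = 2^D`, `N = j^(2M)`: `(|E_h ∩ [0,N)| / N)^M ≤ C / N = C j^(-2M)`, so `|E_h ∩ [0, N)| ≤ C N / j²`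
(`C ≥ 1`).  `∫ |∑_{n < N} F n|² ≤ ∑_{n, m < N} |∫ F n conj (F m)| ≤ N + 2 ∑_{1 ≤ h < N} |E_h ∩ [0, N)| ≤ N + 2 C N² / j² ≤ (1 + 2C) N²/j²`
(`|∫ F n conj(F m)| ≤ 1`; `|∫ F m conj (F n)| = |∫ F n conj (F m)|`).  Then `ae_of_l2` with `m = 2M`. -/

open Finset Filter Topology MeasureTheory

namespace Pool.Agent.CAM

theorem Spr_integrable {Ω : Type*} [MeasurableSpace Ω] (μ : Measure Ω) [IsProbabilityMeasure μ]
    (F : ℕ → Ω → ℂ) (hm : ∀ n, AEStronglyMeasurable (F n) μ) (hF : ∀ n x, ‖F n x‖ ≤ 1) (n m : ℕ) :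
    Integrable (fun x => F n x * (starRingEnd ℂ) (F m x)) μ := by
  have hme : AEStronglyMeasurable (fun x => F n x * (starRingEnd ℂ) (F m x)) μ :=
    (hm n).mul (Complex.continuous_conj.comp_aestronglyMeasurable (hm m))
  apply Integrable.of_bound hme 1
  filter_upwards with x
  rw [norm_mul, RCLike.norm_conj]
  have h1 := hF n x
  have h2 := hF m x
  have h3 := norm_nonneg (F n x)
  have h4 := norm_nonneg (F m x)
  nlinarith

theorem Spr_le {Ω : Type*} [MeasurableSpace Ω] (μ : Measure Ω) [IsProbabilityMeasure μ]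
    (F : ℕ → Ω → ℂ) (hm : ∀ n, AEStronglyMeasurable (F n) μ) (hF : ∀ n x, ‖F n x‖ ≤ 1) (N : ℕ) :
    ∫ x, ‖∑ n ∈ range N, F n x‖ ^ 2 ∂μ ≤
      ∑ n ∈ range N, ∑ m ∈ range N, ‖∫ x, F n x * (starRingEnd ℂ) (F m x) ∂μ‖ := by
  have h1 : ∀ x, (((‖∑ n ∈ range N, F n x‖ ^ 2 : ℝ)) : ℂ)
      = ∑ n ∈ range N, ∑ m ∈ range N, F n x * (starRingEnd ℂ) (F m x) := by
    intro x
    have h2 := Complex.mul_conj' (∑ n ∈ range N, F n x)
    rw [map_sum, sum_mul_sum] at h2
    rw [h2]
    push_cast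
    rfl
  have h3 : (((∫ x, ‖∑ n ∈ range N, F n x‖ ^ 2 ∂μ : ℝ)) : ℂ)
      = ∑ n ∈ range N, ∑ m ∈ range N, ∫ x, F n x * (starRingEnd ℂ) (F m x) ∂μ := by
    have h40 : (((∫ x, ‖∑ n ∈ range N, F n x‖ ^ 2 ∂μ : ℝ)) : ℂ)
        = ∫ x, (((‖∑ n ∈ range N, F n x‖ ^ 2 : ℝ)) : ℂ) ∂μ :=
      (integral_ofReal (𝕜 := ℂ) (f := fun x => ‖∑ n ∈ range N, F n x‖ ^ 2) (μ := μ)).symm
    rw [h40]
    have h4 : (fun x => (((‖∑ n ∈ range N, F n x‖ ^ 2 : ℝ)) : ℂ))
        = fun x => ∑ n ∈ range N, ∑ m ∈ range N, F n x * (starRingEnd ℂ) (F m x) := funext h1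
    have h5 : (∫ x, (((‖∑ n ∈ range N, F n x‖ ^ 2 : ℝ)) : ℂ) ∂μ)
        = ∫ x, ∑ n ∈ range N, ∑ m ∈ range N, F n x * (starRingEnd ℂ) (F m x) ∂μ := by
      rw [h4]
    refine h5.trans ?_
    rw [integral_finsetSum]
    · apply sum_congr rfl
      intro n _
      rw [integral_finsetSum]
      intro m _
      exact Spr_integrable μ F hm hF n m
    · intro n _
      exact integrable_finsetSum _ (fun m _ => Spr_integrable μ F hm hF n m)
  have h6 : 0 ≤ ∫ x, ‖∑ n ∈ range N, F n x‖ ^ 2 ∂μ := integral_nonneg (fun x => by positivity)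
  have h7 : ∫ x, ‖∑ n ∈ range N, F n x‖ ^ 2 ∂μ = ‖(((∫ x, ‖∑ n ∈ range N, F n x‖ ^ 2 ∂μ : ℝ)) : ℂ)‖ := by
    rw [Complex.norm_real, Real.norm_eq_abs, abs_of_nonneg h6]
  rw [h7, h3]
  refine (norm_sum_le _ _).trans (sum_le_sum fun n _ => norm_sum_le _ _)

theorem Spr_symm {Ω : Type*} [MeasurableSpace Ω] (μ : Measure Ω)
    (F : ℕ → Ω → ℂ) (n m : ℕ) :
    ‖∫ x, F n x * (starRingEnd ℂ) (F m x) ∂μ‖ = ‖∫ x, F m x * (starRingEnd ℂ) (F n x) ∂μ‖ := by
  have h1 : ∀ x, F n x * (starRingEnd ℂ) (F m x) = (starRingEnd ℂ) (F m x * (starRingEnd ℂ) (F n x)) := by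
    intro x
    rw [map_mul, Complex.conj_conj]
    ring
  simp_rw [h1]
  rw [integral_conj, RCLike.norm_conj]

open Classical in
theorem Spr_count (N : ℕ) (Co : ℕ → ℕ → Prop) (a : ℕ → ℕ → ℝ) (ha1 : ∀ n m, a n m ≤ 1)
    (hsym : ∀ n m, a n m = a m n) (hz : ∀ n m, m < n → ¬ Co n m → a n m = 0) (B : ℝ)
    (hB : ∀ h, 1 ≤ h → (((range N).filter fun n => Co (n + h) n).card : ℝ) ≤ B) (hB0 : 0 ≤ B) :
    ∑ n ∈ range N, ∑ m ∈ range N, a n m ≤ 2 * N + 2 * N * B := by
  set P := (range N ×ˢ range N).filter fun p : ℕ × ℕ => p.1 = p.2 ∨ Co (max p.1 p.2) (min p.1 p.2) with hP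
  have h1 : ∑ n ∈ range N, ∑ m ∈ range N, a n m ≤ (P.card : ℝ) := by
    rw [← sum_product', hP, card_filter]
    push_cast
    apply sum_le_sum
    intro p _
    split_ifs with hp
    · exact ha1 _ _
    · push Not at hp
      rcases Nat.lt_or_gt_of_ne hp.1 with h | h
      · rw [hsym]
        apply le_of_eq
        apply hz _ _ h
        rw [max_eq_right h.le, min_eq_left h.le] at hp
        exact hp.2
      · apply le_of_eq
        apply hz _ _ h
        rw [max_eq_left h.le, min_eq_right h.le] at hp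
        exact hp.2
  let f : ℕ × ℕ → ℕ := fun p => (p.1 - p.2) + (p.2 - p.1)
  have hmaps : ∀ p ∈ P, f p ∈ range N := by
    intro p hp
    rw [hP, mem_filter, mem_product, mem_range, mem_range] at hp
    rw [mem_range]
    simp only [f]
    omega
  have hfib : ∀ h ∈ range N, (((P.filter fun p => f p = h).card : ℕ) : ℝ) ≤ (if h = 0 then 2 * (N : ℝ) else 0) + 2 * B := by
    intro h _
    by_cases h0 : h = 0
    · rw [if_pos h0]
      have hsub : (P.filter fun p => f p = h) ⊆ (range N).image (fun a => (a, a)) := by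
        intro p hp
        rw [mem_filter, hP, mem_filter, mem_product, mem_range, mem_range] at hp
        simp only [f] at hp
        rw [mem_image]
        refine ⟨p.1, mem_range.mpr hp.1.1.1, ?_⟩
        ext
        · rfl
        · simp only
          omega
      have h2 := (card_le_card hsub).trans card_image_le
      rw [card_range] at h2
      have h3 : (((P.filter fun p => f p = h).card : ℕ) : ℝ) ≤ N := by exact_mod_cast h2
      have h4 : (0 : ℝ) ≤ N := Nat.cast_nonneg N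
      linarith
    · rw [if_neg h0, zero_add]
      set A := (range N).filter fun n => Co (n + h) n with hA
      have hsub : (P.filter fun p => f p = h) ⊆
          A.image (fun a => (a, a + h)) ∪ A.image (fun a => (a + h, a)) := by
        intro p hp
        rw [mem_filter, hP, mem_filter, mem_product, mem_range, mem_range] at hp
        obtain ⟨⟨⟨h3, h4⟩, h5⟩, h6⟩ := hp
        simp only [f] at h6
        have h7 : p.1 ≠ p.2 := by omega
        have h8 : Co (max p.1 p.2) (min p.1 p.2) := by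
          rcases h5 with h | h
          · exact absurd h h7
          · exact h
        rw [mem_union, mem_image, mem_image]
        rcases Nat.lt_or_gt_of_ne h7 with h9 | h9
        · left
          rw [max_eq_right h9.le, min_eq_left h9.le] at h8
          have h10 : p.1 + h = p.2 := by omega
          refine ⟨p.1, ?_, ?_⟩
          · rw [hA, mem_filter, mem_range, h10]
            exact ⟨h3, h8⟩
          · rw [h10]
        · right
          rw [max_eq_left h9.le, min_eq_right h9.le] at h8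
          have h10 : p.2 + h = p.1 := by omega
          refine ⟨p.2, ?_, ?_⟩
          · rw [hA, mem_filter, mem_range, h10]
            exact ⟨h4, h8⟩
          · rw [h10]
      have h11 := (card_le_card hsub).trans (card_union_le _ _)
      have h12 : (A.image (fun a => (a, a + h))).card ≤ A.card := card_image_le
      have h13 : (A.image (fun a => (a + h, a))).card ≤ A.card := card_image_le
      have h14 : (P.filter fun p => f p = h).card ≤ 2 * A.card := by omega
      have h15 : (((P.filter fun p => f p = h).card : ℕ) : ℝ) ≤ 2 * (A.card : ℝ) := by exact_mod_cast h14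
      have h16 := hB h (by omega)
      linarith
  refine h1.trans ?_
  rw [card_eq_sum_card_fiberwise (f := f) (t := range N) hmaps]
  push_cast
  refine (sum_le_sum hfib).trans ?_
  rw [sum_add_distrib, sum_ite_eq', sum_const, card_range, nsmul_eq_mul]
  split_ifs with h
  · linarith
  · have h4 : (0 : ℝ) ≤ N := Nat.cast_nonneg N
    linarith

theorem sparse {Ω : Type*} [MeasurableSpace Ω] (μ : Measure Ω) [IsProbabilityMeasure μ]
    (F : ℕ → Ω → ℂ) (hm : ∀ n, AEStronglyMeasurable (F n) μ) (hF : ∀ n x, ‖F n x‖ ≤ 1)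
    (Co : ℕ → ℕ → Prop)
    (horth : ∀ n m, m < n → ¬ Co n m → ∫ x, F n x * (starRingEnd ℂ) (F m x) ∂μ = 0) (D : ℕ)
    (hcube : ∀ h : ℕ, 1 ≤ h → ∀ (es : List ℕ) (n : ℕ), es.length = D + 1 → (∀ e ∈ es, 1 ≤ e) →
      ¬ HasCube es {n | Co (n + h) n} n) :
    ∀ᵐ x ∂μ, Tendsto (ces (fun n => F n x)) atTop (𝓝 0) := by
  classical
  obtain ⟨C, hC1, hC⟩ := cube_count D
  set M := 2 ^ D with hM
  have hM1 : 1 ≤ M := Nat.one_le_two_pow
  apply ae_of_l2 μ F hm hF (2 * M) (by omega) (2 + 2 * C)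
  intro j hj
  set N := j ^ (2 * M) with hN
  have hN1 : 1 ≤ N := Nat.one_le_pow _ _ hj
  have hjr : (1 : ℝ) ≤ j := by exact_mod_cast hj
  have hj2 : (0 : ℝ) < (j : ℝ) ^ 2 := by positivity
  have hNr : ((N : ℕ) : ℝ) = (j : ℝ) ^ (2 * M) := by rw [hN]; push_cast; rfl
  have hNj : (j : ℝ) ^ 2 ≤ N := by
    rw [hNr]
    exact pow_le_pow_right₀ hjr (by omega)
  have hCr : (1 : ℝ) ≤ C := by exact_mod_cast hC1
  have hB : ∀ h, 1 ≤ h → (((range N).filter fun n => Co (n + h) n).card : ℝ) ≤ C * N / (j : ℝ) ^ 2 := by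
    intro h hh
    have h1 := hC N ((range N).filter fun n => Co (n + h) n) hN1 (filter_subset _ _) (by
      intro es n hl hes hc
      apply hcube h hh es n hl hes
      apply HasCube.mono _ hc
      intro k hk
      rw [mem_coe, mem_filter] at hk
      exact hk.2)
    set c := ((range N).filter fun n => Co (n + h) n).card with hc
    have h2 : ((c : ℕ) : ℝ) ^ M ≤ C * (N : ℝ) ^ (M - 1) := by exact_mod_cast h1
    have h3 : ((c : ℕ) : ℝ) ^ M ≤ (C * N / (j : ℝ) ^ 2) ^ M := by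
      refine h2.trans ?_
      have hNp : (0 : ℝ) < N := by exact_mod_cast hN1
      have h4 : (C * N / (j : ℝ) ^ 2) ^ M = (C : ℝ) ^ M * (N : ℝ) ^ (M - 1) := by
        rw [div_pow, mul_pow, ← pow_mul, ← hNr]
        have h5 : (N : ℝ) ^ M = (N : ℝ) ^ (M - 1) * N := (pow_sub_one_mul (by omega) _).symm
        rw [h5]
        field_simp
      rw [h4]
      apply mul_le_mul_of_nonneg_right _ (by positivity)
      exact le_self_pow₀ hCr (by omega)
    exact le_of_pow_le_pow_left₀ (by omega) (by positivity) h3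
  refine (Spr_le μ F hm hF N).trans ?_
  have h6 := Spr_count N Co (fun n m => ‖∫ x, F n x * (starRingEnd ℂ) (F m x) ∂μ‖) (by
      intro n m
      have h7 : ‖∫ x, F n x * (starRingEnd ℂ) (F m x) ∂μ‖ ≤ 1 * (μ.real Set.univ) := by
        apply norm_integral_le_of_norm_le_const
        filter_upwards with x
        rw [norm_mul, RCLike.norm_conj]
        have h1 := hF n x
        have h2 := hF m x
        have h3 := norm_nonneg (F n x)
        have h4 := norm_nonneg (F m x)
        nlinarith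
      simpa using h7) (fun n m => Spr_symm μ F n m) (by
      intro n m hnm hc
      rw [horth n m hnm hc, norm_zero]) (C * N / (j : ℝ) ^ 2) hB (by positivity)
  refine h6.trans ?_
  rw [← hNr]
  have hNp : (0 : ℝ) < N := by exact_mod_cast hN1
  have h8 : (N : ℝ) ≤ (N : ℝ) ^ 2 / (j : ℝ) ^ 2 := by
    rw [le_div_iff₀ hj2]
    nlinarith
  have h9 : 2 * (N : ℝ) * (C * N / (j : ℝ) ^ 2) = 2 * C * ((N : ℝ) ^ 2 / (j : ℝ) ^ 2) := by ring
  have h10 : (2 + 2 * (C : ℝ)) * (N : ℝ) ^ 2 / (j : ℝ) ^ 2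
      = 2 * ((N : ℝ) ^ 2 / (j : ℝ) ^ 2) + 2 * C * ((N : ℝ) ^ 2 / (j : ℝ) ^ 2) := by ring
  rw [h9, h10]
  linarith

end Pool.Agent.CAM
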