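import Pool.Agent.CAM.Cas
import Pool.Agent.CAM.Spr
import Pool.Agent.CAM.Pha

set_option autoImplicit false

/-! Module Cor: the core induction.
Induction on `r = L.length` (all `q`, `g`).
`r = 0`: `act ((X - 1)^q) g = 0`; for each `x` the sequence `s n = ev (g n) x` satisfies `dl^[q] s = 1` (`ev · x` is a homomorphism, so
`dl (fun n => ev (g n) x) = fun n => ev (act (X - 1) g n) x`); `pha`.
`r + 1`: `L = a :: L'`, `D = L'.length + q`.  If there are `h ≥ 1`, `es` of length `D + 1` with entries `≥ 1` and `n` with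
`HasCube es {n | g (n+h) - g n ∈ K} n`, then (`HasCube.tail`) `cas` gives `d`; for each `c < d` the induction hypothesis applies to
`g (c + d ·)`, `L'.map (·^d)`, `q + 2` (powers of injective elements are injective, powers fix `K`); then `res` for a.e. `x`.
Otherwise `sparse` with `F n x = ev (g n) x`, `Co n m = (g n - g m ∈ K)`, since `F n * conj (F m) = ev (g n - g m)`. -/

open Finset Filter Topology MeasureTheory Polynomial

namespace Pool.Agent.CAM

section lemmas

variable {A Γ Ω : Type*} [CommRing A] [AddCommGroup Γ] [Module A Γ]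

private theorem Cor_zero (ev : Γ → Ω → Circle) (hadd : ∀ a b x, ev (a + b) x = ev a x * ev b x)
    (x : Ω) : ev 0 x = 1 := by
  have h := hadd 0 0 x
  rw [add_zero] at h
  exact (mul_eq_left.1 h.symm)

private theorem Cor_sub (ev : Γ → Ω → Circle) (hadd : ∀ a b x, ev (a + b) x = ev a x * ev b x)
    (a b : Γ) (x : Ω) : ev (a - b) x = ev a x / ev b x := by
  rw [eq_div_iff_mul_eq', ← hadd, sub_add_cancel]

private theorem Cor_dl (ev : Γ → Ω → Circle) (hadd : ∀ a b x, ev (a + b) x = ev a x * ev b x)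
    (x : Ω) (q : ℕ) : ∀ g : ℕ → Γ,
    dl^[q] (fun n => ev (g n) x) = fun n => ev (act ((X - 1 : A[X]) ^ q) g n) x := by
  induction q with
  | zero =>
    intro g
    rw [Function.iterate_zero, id, pow_zero, act_one]
  | succ q ih =>
    intro g
    have h1 : dl (fun n => ev (g n) x) = fun n => ev (act (X - 1 : A[X]) g n) x := by
      funext n
      rw [act_sub, Pi.sub_apply, act_X, act_one, Cor_sub ev hadd]
      rfl
    rw [Function.iterate_succ, Function.comp, h1, ih, ← act_mul, ← pow_succ]

private theorem Cor_pow_inj {a : A} (h : ∀ γ : Γ, a • γ = 0 → γ = 0) (d : ℕ) :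
    ∀ γ : Γ, a ^ d • γ = 0 → γ = 0 := by
  induction d with
  | zero => intro γ hγ; simpa using hγ
  | succ d ih =>
    intro γ hγ
    rw [pow_succ, mul_smul] at hγ
    exact h _ (ih _ hγ)

private theorem Cor_pow_fix {a : A} {γ : Γ} (h : a • γ = γ) (d : ℕ) : a ^ d • γ = γ := by
  induction d with
  | zero => simp
  | succ d ih => rw [pow_succ, mul_smul, h, ih]

end lemmas

theorem core {A Γ Ω : Type*} [CommRing A] [AddCommGroup Γ] [Module A Γ] [MeasurableSpace Ω]
    (μ : Measure Ω) [IsProbabilityMeasure μ] (ev : Γ → Ω → Circle)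
    (hadd : ∀ a b x, ev (a + b) x = ev a x * ev b x)
    (hmeas : ∀ a, AEStronglyMeasurable (fun x => (ev a x : ℂ)) μ) (K : AddSubgroup Γ)
    (hint : ∀ a, a ∉ K → ∫ x, (ev a x : ℂ) ∂μ = 0) (L : List A)
    (hinj : ∀ a ∈ L, ∀ γ : Γ, a • γ = 0 → γ = 0) (hK : ∀ a ∈ L, ∀ γ ∈ K, a • γ = γ) (q : ℕ)
    (g : ℕ → Γ) (hg : act (pol L q) g = 0) :
    ∀ᵐ x ∂μ, Cv (fun n => (ev (g n) x : ℂ)) := by
  obtain ⟨r, hr⟩ : ∃ r, L.length = r := ⟨_, rfl⟩
  induction r generalizing L q g with
  | zero =>
    have hL : L = [] := List.eq_nil_of_length_eq_zero hr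
    subst hL
    refine Filter.Eventually.of_forall fun x => ?_
    apply pha q (fun n => ev (g n) x)
    rw [Cor_dl (A := A) ev hadd x q g]
    have h1 : pol ([] : List A) q = (X - 1) ^ q := by simp [pol]
    rw [h1] at hg
    rw [hg]
    funext n
    exact Cor_zero ev hadd x
  | succ r ih =>
    obtain ⟨a, L', rfl⟩ : ∃ a L', L = a :: L' := by
      cases L with
      | nil => simp at hr
      | cons a L' => exact ⟨a, L', rfl⟩
    have hr' : L'.length = r := by simpa using hr
    by_cases hex : ∃ h : ℕ, 1 ≤ h ∧ ∃ (es : List ℕ) (n : ℕ), es.length = (L'.length + q) + 1 ∧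
        (∀ e ∈ es, 1 ≤ e) ∧ HasCube es {n | g (n + h) - g n ∈ K} n
    · obtain ⟨h, hh, es, n, hlen, hpos, hc⟩ := hex
      obtain ⟨e, es', rfl⟩ : ∃ e es', es = e :: es' := by
        cases es with
        | nil => simp at hlen
        | cons e es' => exact ⟨e, es', rfl⟩
      obtain ⟨d, hd, hact⟩ := cas K a L' (hinj a (by simp)) hK q g hg h hh es'
        (by simpa using hlen) (fun e he => hpos e (by simp [he])) n hc.tail
      have hall : ∀ c : ℕ, ∀ᵐ x ∂μ, Cv (fun m => (ev (g (c + d * m)) x : ℂ)) := by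
        intro c
        refine ih (L'.map (fun b => b ^ d)) ?_ ?_ (q + 2) (fun m => g (c + d * m)) (hact c) (by simpa using hr')
        · intro b hb
          obtain ⟨b', hb', rfl⟩ := List.mem_map.1 hb
          exact Cor_pow_inj (hinj b' (by simp [hb'])) d
        · intro b hb γ hγ
          obtain ⟨b', hb', rfl⟩ := List.mem_map.1 hb
          exact Cor_pow_fix (hK b' (by simp [hb']) γ hγ) d
      filter_upwards [ae_all_iff.2 hall] with x hx
      exact res _ (fun n => (Circle.norm_coe _).le) d hd (fun c _ => hx c)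
    · have hs := sparse μ (fun n x => (ev (g n) x : ℂ)) (fun n => hmeas (g n)) (fun n x => (Circle.norm_coe _).le)
        (fun n m => g n - g m ∈ K) ?_ (L'.length + q) ?_
      · filter_upwards [hs] with x hx
        exact ⟨0, hx⟩
      · intro n m _ hnm
        have h2 : ∀ x, (ev (g n) x : ℂ) * (starRingEnd ℂ) (ev (g m) x : ℂ) = (ev (g n - g m) x : ℂ) := by
          intro x
          rw [Cor_sub ev hadd, ← Circle.coe_inv_eq_conj, div_eq_mul_inv, Circle.coe_mul]
        simp_rw [h2]
        exact hint _ hnm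
      · intro h hh es n hlen hpos hc
        exact hex ⟨h, hh, es, n, hlen, hpos, hc⟩

end Pool.Agent.CAM
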