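import Pool.Agent.CAM.Defs

set_option autoImplicit false

/-! Module Cube: a set `A ⊆ [0, N)` without non-degenerate cubes of dimension `D + 1` has at most
`C N^(1 - 2^(-D))` elements, i.e. `|A|^(2^D) ≤ C N^(2^D - 1)`.
Induction on `D`.  `D = 0`: if `a < a'` are in `A`, then `HasCube [a' - a] A a`; so `|A| ≤ 1`.
Step: for `e ≥ 1` let `A_e = {a ∈ A : a + e ∈ A}`; `A_e` has no cube of dimension `D + 1`
(`HasCube (e :: es) A n = HasCube es {m ∈ A, m + e ∈ A} n`), so `|A_e|^(2^D) ≤ C N^(2^D - 1)`.
`|A| (|A| - 1) / 2 = ∑_{e = 1}^{N} |A_e| ≤ N max_e |A_e|` (map a pair `a < a'` to `(a, a' - a)`).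
So (for `|A| ≥ 2`) `|A|^2 ≤ 4 N max |A_e|` and `|A|^(2^(D+1)) ≤ 4^(2^D) N^(2^D) C N^(2^D - 1)`; for `|A| ≤ 1` trivial
(`N ≥ 1`, `C ≥ 1`). -/

open Finset Filter Topology

namespace Pool.Agent.CAM

/-- a larger set contains more cubes -/
theorem HasCube.mono {es : List ℕ} {E E' : Set ℕ} (h : E ⊆ E') {n : ℕ} (hc : HasCube es E n) :
    HasCube es E' n := by
  induction es generalizing E E' n with
  | nil => exact h hc
  | cons e es ih =>
    unfold HasCube at hc ⊢
    exact ih (E := {m | m ∈ E ∧ m + e ∈ E}) (E' := {m | m ∈ E' ∧ m + e ∈ E'})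
      (fun m hm => ⟨h hm.1, h hm.2⟩) hc

/-- a cube contains a cube of smaller dimension -/
theorem HasCube.tail {e : ℕ} {es : List ℕ} {E : Set ℕ} {n : ℕ} (hc : HasCube (e :: es) E n) :
    HasCube es E n := by
  unfold HasCube at hc
  exact HasCube.mono (fun m hm => hm.1) hc

theorem Cube_pair (N : ℕ) (A : Finset ℕ) (hN : 1 ≤ N) (hA : A ⊆ range N) (h2 : 2 ≤ A.card) :
    ∃ e, 1 ≤ e ∧ A.card ^ 2 ≤ 4 * N * (A.filter fun a => a + e ∈ A).card := by
  classical
  by_contra hcon
  push Not at hcon
  let f : ℕ × ℕ → ℕ := fun p => (p.1 - p.2) + (p.2 - p.1)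
  have hmaps : ∀ p ∈ A.offDiag, f p ∈ Ico 1 N := by
    intro p hp
    rw [mem_offDiag] at hp
    have h3 := mem_range.mp (hA hp.1)
    have h4 := mem_range.mp (hA hp.2.1)
    rw [mem_Ico]
    have h5 := hp.2.2
    simp only [f]
    omega
  have hfib : ∀ e ∈ Ico 1 N, (A.offDiag.filter fun p => f p = e).card ≤ 2 * (A.filter fun a => a + e ∈ A).card := by
    intro e _
    set B := A.filter fun a => a + e ∈ A with hB
    have hsub : (A.offDiag.filter fun p => f p = e) ⊆
        B.image (fun a => (a, a + e)) ∪ B.image (fun a => (a + e, a)) := by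
      intro p hp
      rw [mem_filter, mem_offDiag] at hp
      obtain ⟨⟨h3, h4, h5⟩, h6⟩ := hp
      simp only [f] at h6
      rw [mem_union, mem_image, mem_image]
      rcases Nat.lt_or_ge p.1 p.2 with h7 | h7
      · left
        refine ⟨p.1, ?_, ?_⟩
        · rw [hB, mem_filter]
          refine ⟨h3, ?_⟩
          have : p.1 + e = p.2 := by omega
          rw [this]; exact h4
        · ext
          · rfl
          · simp only
            omega
      · right
        refine ⟨p.2, ?_, ?_⟩
        · rw [hB, mem_filter]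
          refine ⟨h4, ?_⟩
          have : p.2 + e = p.1 := by omega
          rw [this]; exact h3
        · ext
          · simp only
            omega
          · rfl
    refine (card_le_card hsub).trans ((card_union_le _ _).trans ?_)
    have h8 : (B.image (fun a => (a, a + e))).card ≤ B.card := card_image_le
    have h9 : (B.image (fun a => (a + e, a))).card ≤ B.card := card_image_le
    omega
  have h3 := card_eq_sum_card_fiberwise (f := f) (t := Ico 1 N) hmaps
  rw [offDiag_card] at h3
  have h4 : A.card * A.card - A.card ≤ ∑ e ∈ Ico 1 N, 2 * (A.filter fun a => a + e ∈ A).card := by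
    rw [h3]
    exact sum_le_sum hfib
  have h5 : 2 * N * (A.card * A.card - A.card) ≤ (N - 1) * A.card ^ 2 := by
    calc 2 * N * (A.card * A.card - A.card)
        ≤ 2 * N * ∑ e ∈ Ico 1 N, 2 * (A.filter fun a => a + e ∈ A).card := Nat.mul_le_mul le_rfl h4
      _ = ∑ e ∈ Ico 1 N, 4 * N * (A.filter fun a => a + e ∈ A).card := by
          rw [mul_sum]
          apply sum_congr rfl
          intro e _
          ring
      _ ≤ ∑ _e ∈ Ico 1 N, A.card ^ 2 := by
          apply sum_le_sum
          intro e he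
          exact (hcon e (mem_Ico.mp he).1).le
      _ = (N - 1) * A.card ^ 2 := by
          rw [sum_const, Nat.card_Ico, smul_eq_mul]
  have h6 : A.card ^ 2 ≤ 2 * (A.card * A.card - A.card) := by
    obtain ⟨k, hk⟩ : ∃ k, A.card = k + 2 := ⟨A.card - 2, by omega⟩
    rw [hk]
    have : (k + 2) * (k + 2) - (k + 2) = (k + 2) * (k + 1) := by
      rw [← Nat.mul_sub_one]
      rfl
    rw [this]
    nlinarith
  have h7 : N * A.card ^ 2 ≤ (N - 1) * A.card ^ 2 := by
    calc N * A.card ^ 2 ≤ N * (2 * (A.card * A.card - A.card)) := Nat.mul_le_mul le_rfl h6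
      _ = 2 * N * (A.card * A.card - A.card) := by ring
      _ ≤ _ := h5
  have h8 : 0 < A.card ^ 2 := by positivity
  have h9 := Nat.le_of_mul_le_mul_right h7 h8
  omega

theorem cube_count (D : ℕ) : ∃ C : ℕ, 1 ≤ C ∧ ∀ (N : ℕ) (A : Finset ℕ), 1 ≤ N → A ⊆ range N →
    (∀ (es : List ℕ) (n : ℕ), es.length = D + 1 → (∀ e ∈ es, 1 ≤ e) → ¬ HasCube es (A : Set ℕ) n) →
    A.card ^ (2 ^ D) ≤ C * N ^ (2 ^ D - 1) := by
  classical
  induction D with
  | zero =>
    refine ⟨1, le_rfl, ?_⟩
    intro N A hN hA hno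
    simp only [pow_zero, pow_one, Nat.sub_self, mul_one]
    by_contra hc
    push Not at hc
    obtain ⟨a, ha, b, hb, hab⟩ := one_lt_card.mp hc
    rcases Nat.lt_or_gt_of_ne hab with h | h
    · refine hno [b - a] a rfl ?_ ?_
      · intro e he
        rw [List.mem_singleton] at he
        omega
      · unfold HasCube HasCube
        refine ⟨ha, ?_⟩
        have : a + (b - a) = b := by omega
        rw [this]; exact hb
    · refine hno [a - b] b rfl ?_ ?_
      · intro e he
        rw [List.mem_singleton] at he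
        omega
      · unfold HasCube HasCube
        refine ⟨hb, ?_⟩
        have : b + (a - b) = a := by omega
        rw [this]; exact ha
  | succ D ih =>
    obtain ⟨C, hC1, hC⟩ := ih
    refine ⟨4 ^ (2 ^ D) * C, Nat.one_le_iff_ne_zero.mpr (by positivity), ?_⟩
    intro N A hN hA hno
    by_cases h2 : 2 ≤ A.card
    · obtain ⟨e, he1, he⟩ := Cube_pair N A hN hA h2
      have h3 := hC N (A.filter fun a => a + e ∈ A) hN ((filter_subset _ _).trans hA) (by
        intro es n hl hes hc
        refine hno (e :: es) n (by rw [List.length_cons, hl]) ?_ ?_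
        · intro x hx
          rcases List.mem_cons.mp hx with h | h
          · rw [h]; exact he1
          · exact hes x h
        · unfold HasCube
          refine HasCube.mono ?_ hc
          intro m hm
          rw [mem_coe, mem_filter] at hm
          exact ⟨hm.1, hm.2⟩)
      calc A.card ^ (2 ^ (D + 1)) = (A.card ^ 2) ^ (2 ^ D) := by rw [← pow_mul, pow_succ, mul_comm]
        _ ≤ (4 * N * (A.filter fun a => a + e ∈ A).card) ^ (2 ^ D) := Nat.pow_le_pow_left he _
        _ = 4 ^ (2 ^ D) * N ^ (2 ^ D) * (A.filter fun a => a + e ∈ A).card ^ (2 ^ D) := by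
            rw [mul_pow, mul_pow]
        _ ≤ 4 ^ (2 ^ D) * N ^ (2 ^ D) * (C * N ^ (2 ^ D - 1)) := Nat.mul_le_mul le_rfl h3
        _ = 4 ^ (2 ^ D) * C * N ^ (2 ^ (D + 1) - 1) := by
            have h4 : 2 ^ (D + 1) - 1 = 2 ^ D + (2 ^ D - 1) := by
              have : 0 < 2 ^ D := by positivity
              rw [pow_succ]
              omega
            rw [h4, pow_add]
            ring
    · have h3 : A.card ^ (2 ^ (D + 1)) ≤ 1 ^ (2 ^ (D + 1)) := Nat.pow_le_pow_left (by omega) _
      rw [one_pow] at h3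
      refine h3.trans ?_
      exact Nat.one_le_iff_ne_zero.mpr (by positivity)

end Pool.Agent.CAM
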