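import Mathlib

set_option autoImplicit false

/-! Common definitions for squad CAM (MP_d464d9_an: pointwise convergence of multiple averages for
commuting affine maps of compact abelian groups). -/

open Finset Filter Topology

namespace Pool.Agent.CAM

/-- the Cesàro averages of `s` -/
noncomputable def ces (s : ℕ → ℂ) (N : ℕ) : ℂ := (1 / (N : ℂ)) * ∑ n ∈ range N, s n

/-- the Cesàro averages of `s` converge -/
def Cv (s : ℕ → ℂ) : Prop := ∃ L : ℂ, Tendsto (ces s) atTop (𝓝 L)

/-- `E` contains the cube `n + ∑ ω_i e_i`, `ω_i ∈ {0, 1}` -/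
def HasCube : List ℕ → Set ℕ → ℕ → Prop
  | [], E, n => n ∈ E
  | (e :: es), E, n => HasCube es {m | m ∈ E ∧ m + e ∈ E} n

section act

open Polynomial

variable {A Γ : Type*} [CommRing A] [AddCommGroup Γ] [Module A Γ]

/-- the shift on sequences -/
def sh : Module.End A (ℕ → Γ) where
  toFun g n := g (n + 1)
  map_add' _ _ := rfl
  map_smul' _ _ := rfl

/-- action of a polynomial in the shift on a sequence -/
noncomputable def act (P : A[X]) (g : ℕ → Γ) : ℕ → Γ := Polynomial.aeval (sh : Module.End A (ℕ → Γ)) P g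

theorem act_mul (P Q : A[X]) (g : ℕ → Γ) : act (P * Q) g = act P (act Q g) := by
  simp [act]

theorem act_add (P Q : A[X]) (g : ℕ → Γ) : act (P + Q) g = act P g + act Q g := by
  simp [act]

theorem act_sub (P Q : A[X]) (g : ℕ → Γ) : act (P - Q) g = act P g - act Q g := by
  simp [act]

theorem act_zero_seq (P : A[X]) : act P (0 : ℕ → Γ) = 0 := by
  simp [act]

theorem act_one (g : ℕ → Γ) : act (1 : A[X]) g = g := by
  simp [act]

theorem act_C (a : A) (g : ℕ → Γ) (n : ℕ) : act (C a) g n = a • g n := by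
  simp [act]

theorem act_X (g : ℕ → Γ) (n : ℕ) : act (X : A[X]) g n = g (n + 1) := by
  simp [act, sh]

theorem act_X_pow (e : ℕ) (g : ℕ → Γ) (n : ℕ) : act (X ^ e : A[X]) g n = g (n + e) := by
  induction e generalizing g n with
  | zero => rw [pow_zero, act_one, add_zero]
  | succ e ih => rw [pow_succ, act_mul, ih, act_X, add_assoc]

theorem act_fac (e : ℕ) (a : A) (g : ℕ → Γ) (n : ℕ) :
    act (X ^ e - C a : A[X]) g n = g (n + e) - a • g n := by
  rw [act_sub, Pi.sub_apply, act_X_pow, act_C]

theorem act_dvd {P Q : A[X]} (h : P ∣ Q) {g : ℕ → Γ} (hg : act P g = 0) : act Q g = 0 := by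
  obtain ⟨R, rfl⟩ := h
  rw [mul_comm, act_mul, hg, act_zero_seq]

/-- the annihilating polynomial `∏ (X - a) (X - 1)^q` -/
noncomputable def pol (L : List A) (q : ℕ) : A[X] := (L.map (fun a => X - C a)).prod * (X - 1) ^ q

end act

end Pool.Agent.CAM
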