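import Mathlib

set_option autoImplicit false

/-! Module PWb: common eigenvectors.
`pwb_fin`: a family of commuting endomorphisms of a non-zero finite dimensional complex vector space has a common eigenvector (strong
induction on the dimension: if all are scalars, any non-zero vector; otherwise pass to an eigenspace of a non-scalar one: it is proper, non-zero,
and invariant under the others).
`pwb`: `N† N` is compact, self-adjoint, non-zero (`‖N† N‖ = ‖N‖²`), so it has a non-zero eigenvalue `l`: for a self-adjoint element of the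
C*-algebra `H →L[ℂ] H` the spectral radius is the norm (`IsSelfAdjoint.spectralRadius_eq_nnnorm`), so there is a spectral value `l ≠ 0`, and for a compact operator a
non-zero spectral value is an eigenvalue (`IsCompactOperator.hasEigenvalue_iff_mem_spectrum`, file
Mathlib/Analysis/Normed/Operator/Compact/FredholmAlternative.lean), with finite dimensional eigenspace `E`
(Mathlib/Analysis/Normed/Operator/Compact/FiniteDimension.lean).  `N†` commutes with every `π i`: `N† π_i = (π_i† N)† = (π_j N)† = (N π_j)† = π_j† N† = π_i N†`.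
So `E` is invariant under all `π i`; `pwb_fin` on `E`; `N† N f = l f ≠ 0` gives `N f ≠ 0`. -/

open Filter Topology

namespace Pool.Agent.CAM

theorem pwb_fin {ι V : Type*} [AddCommGroup V] [Module ℂ V] [FiniteDimensional ℂ V] [Nontrivial V]
    (π : ι → (V →ₗ[ℂ] V)) (hcomm : ∀ i j, π i ∘ₗ π j = π j ∘ₗ π i) :
    ∃ f : V, f ≠ 0 ∧ ∀ i, ∃ c : ℂ, π i f = c • f := by
  have hc : ∀ i j x, π i (π j x) = π j (π i x) := fun i j x => by
    have := congrArg (fun T => T x) (hcomm i j)
    simpa using this
  let S : Set (Submodule ℂ V) := {W | W ≠ ⊥ ∧ ∀ i, ∀ x ∈ W, π i x ∈ W}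
  have hS : S.Nonempty := ⟨⊤, top_ne_bot, fun _ _ _ => Submodule.mem_top⟩
  have hwf : WellFounded ((· < ·) : Submodule ℂ V → Submodule ℂ V → Prop) := wellFounded_lt
  obtain ⟨W, hW, hmin⟩ := hwf.has_min S hS
  obtain ⟨hW0, hWi⟩ := hW
  haveI : Nontrivial W := (Submodule.nontrivial_iff_ne_bot).2 hW0
  have hscal : ∀ i, ∃ c : ℂ, ∀ x ∈ W, π i x = c • x := by
    intro i
    let T : W →ₗ[ℂ] W := (π i).restrict (fun x hx => hWi i x hx)
    obtain ⟨c, hc1⟩ := Module.End.exists_eigenvalue (K := ℂ) T
    obtain ⟨v, hv⟩ := hc1.exists_hasEigenvector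
    have hv1 : T v = c • v := hv.apply_eq_smul
    have hv0 : v ≠ 0 := hv.2
    have hv2 : π i (v : V) = c • (v : V) := by
      have := congrArg (Subtype.val) hv1
      simpa [T] using this
    refine ⟨c, ?_⟩
    let W' : Submodule ℂ V := W ⊓ Module.End.eigenspace (π i) c
    have hmem : ∀ x, x ∈ W' ↔ x ∈ W ∧ π i x = c • x := by
      intro x
      rw [Submodule.mem_inf, Module.End.mem_eigenspace_iff]
    have hW'S : W' ∈ S := by
      constructor
      · intro hbot
        have h1 : (v : V) ∈ W' := (hmem _).2 ⟨v.2, hv2⟩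
        rw [hbot, Submodule.mem_bot] at h1
        exact hv0 (Subtype.ext h1)
      · intro j x hx
        rw [hmem] at hx ⊢
        refine ⟨hWi j x hx.1, ?_⟩
        rw [hc i j x, hx.2, map_smul]
    have hle : W' ≤ W := inf_le_left
    have heq : W' = W := by
      by_contra hne
      exact hmin W' hW'S (lt_of_le_of_ne hle hne)
    intro x hx
    rw [← heq, hmem] at hx
    exact hx.2
  obtain ⟨f, hfW, hf0⟩ := (Submodule.ne_bot_iff W).1 hW0
  exact ⟨f, hf0, fun i => by obtain ⟨c, h⟩ := hscal i; exact ⟨c, h f hfW⟩⟩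

theorem pwb {ι H : Type*} [NormedAddCommGroup H] [InnerProductSpace ℂ H] [CompleteSpace H]
    (N : H →L[ℂ] H) (hN : IsCompactOperator N) (hN0 : N ≠ 0) (π : ι → (H →L[ℂ] H))
    (hcomm : ∀ i j, π i ∘L π j = π j ∘L π i)
    (hadj : ∀ i, ∃ j, ContinuousLinearMap.adjoint (π i) = π j)
    (hNc : ∀ i, N ∘L π i = π i ∘L N) :
    ∃ f : H, f ≠ 0 ∧ N f ≠ 0 ∧ ∀ i, ∃ c : ℂ, π i f = c • f := by
  set T : H →L[ℂ] H := ContinuousLinearMap.adjoint N ∘L N with hT
  have hTc : IsCompactOperator T := hN.clm_comp (ContinuousLinearMap.adjoint N)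
  have hTs : (T : H →ₗ[ℂ] H).IsSymmetric := by
    intro x y
    simp only [hT, ContinuousLinearMap.coe_coe, ContinuousLinearMap.coe_comp', Function.comp_apply]
    rw [ContinuousLinearMap.adjoint_inner_left, ContinuousLinearMap.adjoint_inner_right]
  have hT0 : T ≠ 0 := by
    rw [hT, Ne, ContinuousLinearMap.adjoint_comp_self_eq_zero_iff]
    exact hN0
  obtain ⟨μ, hμ, hμ0⟩ : ∃ μ : ℂ, Module.End.HasEigenvalue (T : Module.End ℂ H) μ ∧ μ ≠ 0 := by
    by_contra hcon
    push Not at hcon
    exact hT0 ((ContinuousLinearMap.eq_zero_of_forall_hasEigenvalue_eq_zero hTc hTs).1 hcon)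
  -- `N†` commutes with the family
  have hadjc : ∀ i, ContinuousLinearMap.adjoint N ∘L π i = π i ∘L ContinuousLinearMap.adjoint N := by
    intro i
    obtain ⟨j, hj⟩ := hadj i
    have h1 : ContinuousLinearMap.adjoint (π j) = π i := by
      rw [← hj, ContinuousLinearMap.adjoint_adjoint]
    have h2 : ContinuousLinearMap.adjoint (N ∘L π j) = ContinuousLinearMap.adjoint (π j ∘L N) := by
      rw [hNc j]
    rw [ContinuousLinearMap.adjoint_comp, ContinuousLinearMap.adjoint_comp, h1] at h2
    exact h2.symm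
  let E : Submodule ℂ H := Module.End.eigenspace (T : Module.End ℂ H) μ
  haveI : FiniteDimensional ℂ E := ContinuousLinearMap.finite_dimensional_eigenspace hTc μ hμ0
  haveI : Nontrivial E := (Submodule.nontrivial_iff_ne_bot).2 hμ
  have hmem : ∀ x, x ∈ E ↔ T x = μ • x := by
    intro x
    show x ∈ Module.End.eigenspace (T : Module.End ℂ H) μ ↔ _
    rw [Module.End.mem_eigenspace_iff]
    rfl
  have hinv : ∀ i, ∀ x ∈ E, π i x ∈ E := by
    intro i x hx
    rw [hmem] at hx ⊢
    have e1 : N (π i x) = π i (N x) := by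
      have := congrArg (fun S : H →L[ℂ] H => S x) (hNc i)
      simpa using this
    have e2 : ContinuousLinearMap.adjoint N (π i (N x)) = π i (ContinuousLinearMap.adjoint N (N x)) := by
      have := congrArg (fun S : H →L[ℂ] H => S (N x)) (hadjc i)
      simpa using this
    have e3 : T (π i x) = π i (T x) := by
      simp only [hT, ContinuousLinearMap.coe_comp', Function.comp_apply]
      rw [e1, e2]
    rw [e3, hx, map_smul]
  let ρ : ι → (E →ₗ[ℂ] E) := fun i => ((π i : H →L[ℂ] H) : H →ₗ[ℂ] H).restrict (fun x hx => hinv i x hx)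
  have hρ : ∀ i j, ρ i ∘ₗ ρ j = ρ j ∘ₗ ρ i := by
    intro i j
    ext x
    have := congrArg (fun S : H →L[ℂ] H => S (x : H)) (hcomm i j)
    simpa [ρ] using this
  obtain ⟨f, hf0, hf⟩ := pwb_fin ρ hρ
  refine ⟨(f : H), fun h => hf0 (Subtype.ext h), ?_, ?_⟩
  · intro hNf
    have h1 : T (f : H) = μ • (f : H) := (hmem _).1 f.2
    have h2 : T (f : H) = 0 := by
      simp only [hT, ContinuousLinearMap.coe_comp', Function.comp_apply]
      rw [hNf, map_zero]
    rw [h2] at h1
    have h3 : (f : H) = 0 := by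
      rcases smul_eq_zero.1 h1.symm with h | h
      · exact absurd h hμ0
      · exact h
    exact hf0 (Subtype.ext h3)
  · intro i
    obtain ⟨c, hc⟩ := hf i
    refine ⟨c, ?_⟩
    have := congrArg Subtype.val hc
    simpa [ρ] using this

end Pool.Agent.CAM
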