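import Pool.Agent.CAM.PWa
import Pool.Agent.CAM.PWb

set_option autoImplicit false

/-! Module PWc: the characters of a compact Hausdorff abelian group separate the points (Peter-Weyl).
Let `x₀ ≠ 1`, `μ` the Haar probability measure (`MeasureTheory.Measure.haar` normalised, or `haarMeasure ⊤`; regular).  `τ_x f = f(x ·)` on `Lp ℂ 2 μ`
(`Lp.compMeasurePreservingₗᵢ`), commuting isometries with `τ_x† = τ_{x⁻¹}`.
Take `ψ ∈ C(G, ℂ)` with `ψ 1 ≠ ψ x₀` (Urysohn), `u = ψ - ψ(x₀ ·) ≠ 0` continuous, `φ(y) = conj (u (y⁻¹))`, `K` from `pwa`; `(K u)(1) = ∫ |u|² > 0` and the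
representative of `K u` is continuous (`pwa_cont`), so `K u ≠ 0` (`μ` is positive on open sets).  `N = K ∘ (1 - τ_{x₀})` is compact, non-zero (`N ψ = K u`),
and commutes with all `τ_x` (invariance of `μ`).  `pwb`: `f` with `N f ≠ 0`, `τ_x f = c(x) f` for all `x`.
`c(xy) = c(x) c(y)`, `|c(x)| = 1` (`τ_x` isometric).  `N f = (1 - c(x₀)) K f ≠ 0`, so `c(x₀) ≠ 1` and `K f ≠ 0`.  Continuity of `c`: the continuous representative
`h` of `K f` satisfies `h(x y) = c(x) h(y)` (for a.e. `y`, so for all `y`), and `h(y₀) ≠ 0` for some `y₀`; `c(x) = h(x y₀)/h(y₀)`.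
So `c` defines a continuous character with `c(x₀) ≠ 1`. -/

open Filter Topology MeasureTheory

namespace Pool.Agent.CAM

set_option linter.unusedSectionVars false

section

variable {G : Type*} [CommGroup G] [TopologicalSpace G] [IsTopologicalGroup G] [CompactSpace G]
    [T2Space G] [MeasurableSpace G] [BorelSpace G] (μ : Measure G) [IsProbabilityMeasure μ]
    [μ.IsMulLeftInvariant]

/-- translation -/
noncomputable def PWc_tau (x : G) : Lp ℂ 2 μ →L[ℂ] Lp ℂ 2 μ :=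
  (Lp.compMeasurePreservingₗᵢ ℂ (fun y => x * y) (measurePreserving_mul_left μ x)).toContinuousLinearMap

theorem PWc_tau_ae (x : G) (f : Lp ℂ 2 μ) : PWc_tau μ x f =ᵐ[μ] fun y => f (x * y) :=
  Lp.coeFn_compMeasurePreserving f (measurePreserving_mul_left μ x)

theorem PWc_tau_norm (x : G) (f : Lp ℂ 2 μ) : ‖PWc_tau μ x f‖ = ‖f‖ :=
  (Lp.compMeasurePreservingₗᵢ ℂ (fun y => x * y) (measurePreserving_mul_left μ x)).norm_map f

theorem PWc_ae_mul {p : G → Prop} (x : G) (h : ∀ᵐ y ∂μ, p y) : ∀ᵐ y ∂μ, p (x * y) :=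
  (measurePreserving_mul_left μ x).quasiMeasurePreserving.ae h

theorem PWc_tau_comp (x y : G) (f : Lp ℂ 2 μ) :
    PWc_tau μ x (PWc_tau μ y f) = PWc_tau μ (x * y) f := by
  apply Lp.ext
  filter_upwards [PWc_tau_ae μ x (PWc_tau μ y f), PWc_ae_mul μ x (PWc_tau_ae μ y f),
    PWc_tau_ae μ (x * y) f] with z h1 h2 h3
  rw [h1, h2, h3]
  congr 1
  rw [← mul_assoc, mul_comm y x]

theorem PWc_tau_one (f : Lp ℂ 2 μ) : PWc_tau μ 1 f = f := by
  apply Lp.ext
  filter_upwards [PWc_tau_ae μ 1 f] with z h1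
  rw [h1, one_mul]

theorem PWc_adj (x : G) : ContinuousLinearMap.adjoint (PWc_tau μ x) = PWc_tau μ x⁻¹ := by
  symm
  rw [ContinuousLinearMap.eq_adjoint_iff]
  intro f g
  have h := (Lp.compMeasurePreservingₗᵢ (p := 2) (E := ℂ) ℂ (fun y => x * y)
    (measurePreserving_mul_left μ x)).inner_map_map (PWc_tau μ x⁻¹ f) g
  rw [← h]
  have h2 : (Lp.compMeasurePreservingₗᵢ ℂ (fun y => x * y) (measurePreserving_mul_left μ x))
    (PWc_tau μ x⁻¹ f) = f := by
    have := PWc_tau_comp μ x x⁻¹ f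
    rw [mul_inv_cancel, PWc_tau_one] at this
    exact this
  rw [h2]
  rfl

theorem PWc_comm (φ : C(G, ℂ)) (K : Lp ℂ 2 μ →L[ℂ] Lp ℂ 2 μ)
    (hK : ∀ f : Lp ℂ 2 μ, K f =ᵐ[μ] fun x => ∫ y, φ (x * y⁻¹) * f y ∂μ) (x : G) (f : Lp ℂ 2 μ) :
    K (PWc_tau μ x f) = PWc_tau μ x (K f) := by
  apply Lp.ext
  filter_upwards [hK (PWc_tau μ x f), PWc_tau_ae μ x (K f), PWc_ae_mul μ x (hK f)] with z h1 h2 h3
  rw [h1, h2, h3]
  rw [← integral_mul_left_eq_self (fun y => φ (x * z * y⁻¹) * f y) x]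
  apply integral_congr_ae
  filter_upwards [PWc_tau_ae μ x f] with y hy
  rw [hy]
  have : x * z * (x * y)⁻¹ = z * y⁻¹ := by
    rw [mul_inv, mul_comm x z, mul_assoc, mul_inv_cancel_left]
  rw [this]

theorem PWc_h (φ : C(G, ℂ)) (x : G) (f : Lp ℂ 2 μ) (c : ℂ) (hc : PWc_tau μ x f = c • f) (z : G) :
    ∫ y, φ ((x * z) * y⁻¹) * f y ∂μ = c * ∫ y, φ (z * y⁻¹) * f y ∂μ := by
  rw [← integral_mul_left_eq_self (fun y => φ (x * z * y⁻¹) * f y) x, ← integral_const_mul]
  apply integral_congr_ae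
  have h0 := PWc_tau_ae μ x f
  rw [hc] at h0
  filter_upwards [h0, Lp.coeFn_smul c f] with y hy hy2
  rw [← hy, hy2]
  simp only [Pi.smul_apply, smul_eq_mul]
  have : x * z * (x * y)⁻¹ = z * y⁻¹ := by
    rw [mul_inv, mul_comm x z, mul_assoc, mul_inv_cancel_left]
  rw [this]
  ring

end

theorem pw {G : Type*} [CommGroup G] [TopologicalSpace G] [IsTopologicalGroup G] [CompactSpace G]
    [T2Space G] (x₀ : G) (hx : x₀ ≠ 1) : ∃ χ : G →ₜ* Circle, χ x₀ ≠ 1 := by
  let _ : MeasurableSpace G := borel G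
  have _ : BorelSpace G := ⟨rfl⟩
  obtain ⟨μ, hμ1, hμ2, hμ3⟩ : ∃ μ : Measure G, IsProbabilityMeasure μ ∧ μ.IsMulLeftInvariant ∧
      μ.IsOpenPosMeasure := by
    refine ⟨Measure.haarMeasure ⊤, ⟨?_⟩, inferInstance, inferInstance⟩
    have := Measure.haarMeasure_self (K₀ := (⊤ : TopologicalSpace.PositiveCompacts G))
    simpa using this
  -- a function separating the points
  obtain ⟨ψ, hψ⟩ : ∃ ψ : C(G, ℂ), ψ 1 ≠ ψ x₀ := by
    obtain ⟨f, hf1, hf2, -⟩ := exists_continuous_zero_one_of_isClosed (isClosed_singleton (x := (1 : G)))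
      (isClosed_singleton (x := x₀)) (by simpa using hx.symm)
    refine ⟨⟨fun x => ((f x : ℝ) : ℂ), Complex.continuous_ofReal.comp f.continuous⟩, ?_⟩
    have h1 : f 1 = 0 := hf1 rfl
    have h2 : f x₀ = 1 := hf2 rfl
    simp [h1, h2]
  set u : C(G, ℂ) := ψ - ⟨fun x => ψ (x₀ * x), by fun_prop⟩ with hu
  have hu1 : u 1 ≠ 0 := by
    simp only [hu, ContinuousMap.sub_apply, ContinuousMap.coe_mk, mul_one]
    exact sub_ne_zero.2 hψ
  set φ : C(G, ℂ) := ⟨fun y => star (u y⁻¹), by fun_prop⟩ with hφ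
  obtain ⟨K, hKc, hK⟩ := pwa μ φ
  -- the operator
  set N : Lp ℂ 2 μ →L[ℂ] Lp ℂ 2 μ := K ∘L (ContinuousLinearMap.id ℂ _ - PWc_tau μ x₀) with hN
  have hNc : IsCompactOperator N := by
    have := hKc.comp_clm (ContinuousLinearMap.id ℂ _ - PWc_tau μ x₀)
    exact this
  have hNapp : ∀ f, N f = K f - K (PWc_tau μ x₀ f) := by
    intro f
    simp [hN]
  have hN0 : N ≠ 0 := by
    intro h0
    have h1 := hNapp (ContinuousMap.toLp 2 μ ℂ ψ)
    rw [h0] at h1
    simp only [zero_apply] at h1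
    rw [← map_sub] at h1
    have h2 := hK (ContinuousMap.toLp 2 μ ℂ ψ - PWc_tau μ x₀ (ContinuousMap.toLp 2 μ ℂ ψ))
    rw [← h1] at h2
    have h3 : (fun _ => (0 : ℂ)) =ᵐ[μ] fun x => ∫ y, φ (x * y⁻¹) *
        (ContinuousMap.toLp 2 μ ℂ ψ - PWc_tau μ x₀ (ContinuousMap.toLp 2 μ ℂ ψ) : Lp ℂ 2 μ) y ∂μ := by
      filter_upwards [h2, Lp.coeFn_zero ℂ 2 μ] with x h4 h5
      rw [← h4, h5]
      rfl
    rw [Continuous.ae_eq_iff_eq μ continuous_const (pwa_cont μ φ _)] at h3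
    have h4 := congrFun h3 1
    have h5 : ∫ y, φ (1 * y⁻¹) *
        (ContinuousMap.toLp 2 μ ℂ ψ - PWc_tau μ x₀ (ContinuousMap.toLp 2 μ ℂ ψ) : Lp ℂ 2 μ) y ∂μ
        = ∫ y, ((‖u y‖ ^ 2 : ℝ) : ℂ) ∂μ := by
      apply integral_congr_ae
      filter_upwards [Lp.coeFn_sub (ContinuousMap.toLp 2 μ ℂ ψ)
        (PWc_tau μ x₀ (ContinuousMap.toLp 2 μ ℂ ψ)), PWc_tau_ae μ x₀ (ContinuousMap.toLp 2 μ ℂ ψ),
        ContinuousMap.coeFn_toLp (p := 2) (𝕜 := ℂ) μ ψ,
        PWc_ae_mul μ x₀ (ContinuousMap.coeFn_toLp (p := 2) (𝕜 := ℂ) μ ψ)] with y g1 g2 g3 g4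
      rw [g1, Pi.sub_apply, g2, g3, g4]
      have g5 : ψ y - ψ (x₀ * y) = u y := by simp [hu]
      rw [g5, one_mul]
      simp only [hφ, ContinuousMap.coe_mk, inv_inv]
      push_cast
      exact Complex.conj_mul' (u y)
    rw [h5, integral_complex_ofReal] at h4
    have h6 : ∫ y, ‖u y‖ ^ 2 ∂μ = 0 := by exact_mod_cast h4.symm
    have hc : Continuous fun y => ‖u y‖ ^ 2 := by fun_prop
    have h7 := (integral_eq_zero_iff_of_nonneg (fun y => by positivity)
      (hc.integrable_of_hasCompactSupport (HasCompactSupport.of_compactSpace _))).1 h6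
    have h8 : (fun y => ‖u y‖ ^ 2) = fun _ => (0 : ℝ) :=
      (Continuous.ae_eq_iff_eq μ hc continuous_const).1 h7
    have h9 := congrFun h8 1
    simp at h9
    exact hu1 h9
  obtain ⟨f, hf0, hNf, hc⟩ := pwb N hNc hN0 (PWc_tau μ)
    (by
      intro x y
      ext1 f
      simp only [ContinuousLinearMap.comp_apply]
      rw [PWc_tau_comp, PWc_tau_comp, mul_comm])
    (fun x => ⟨x⁻¹, PWc_adj μ x⟩)
    (by
      intro x
      ext1 f
      simp only [ContinuousLinearMap.comp_apply]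
      rw [hNapp, hNapp, map_sub, PWc_comm μ φ K hK, PWc_tau_comp, mul_comm, ← PWc_tau_comp,
        PWc_comm μ φ K hK x])
  choose c hc using hc
  have hcm : ∀ x y, c (x * y) = c x * c y := by
    intro x y
    have h1 : c (x * y) • f = (c x * c y) • f := by
      rw [← hc, ← PWc_tau_comp, hc y, map_smul, hc x, smul_smul, mul_comm]
    exact smul_left_injective ℂ hf0 h1
  have hcn : ∀ x, ‖c x‖ = 1 := by
    intro x
    have h1 := PWc_tau_norm μ x f
    rw [hc x, norm_smul] at h1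
    have h2 : ‖f‖ ≠ 0 := by simpa using hf0
    exact mul_right_cancel₀ h2 (by rw [h1, one_mul])
  have hNf2 : N f = (1 - c x₀) • K f := by
    rw [hNapp, hc x₀, map_smul, sub_smul, one_smul]
  have hc0 : c x₀ ≠ 1 := by
    intro h
    apply hNf
    rw [hNf2, h, sub_self, zero_smul]
  have hKf : K f ≠ 0 := by
    intro h
    apply hNf
    rw [hNf2, h, smul_zero]
  set h : G → ℂ := fun x => ∫ y, φ (x * y⁻¹) * f y ∂μ with hh
  have hcont : Continuous h := pwa_cont μ φ f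
  have hmul : ∀ x z, h (x * z) = c x * h z := fun x z => PWc_h μ φ x f (c x) (hc x) z
  obtain ⟨y₀, hy₀⟩ : ∃ y₀, h y₀ ≠ 0 := by
    by_contra hcon
    push Not at hcon
    apply hKf
    apply Lp.ext
    filter_upwards [hK f, Lp.coeFn_zero ℂ 2 μ] with x h1 h2
    rw [h1, h2]
    exact hcon x
  have hccont : Continuous c := by
    have : c = fun x => h (x * y₀) / h y₀ := by
      funext x
      rw [hmul, mul_div_cancel_right₀ _ hy₀]
    rw [this]
    exact (hcont.comp (continuous_mul_const y₀)).div_const _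
  have hc1 : c 1 = 1 := by
    have h1 := hcm 1 1
    rw [mul_one] at h1
    have h2 : c 1 ≠ 0 := by
      intro h2
      have := hcn 1
      rw [h2] at this
      simp at this
    exact mul_left_cancel₀ h2 (by rw [← h1, mul_one])
  refine ⟨{ toFun := fun x => ⟨c x, by simpa [Submonoid.unitSphere] using hcn x⟩
            map_one' := ?_
            map_mul' := ?_
            continuous_toFun := ?_ }, ?_⟩
  · exact Circle.ext hc1
  · intro x y
    exact Circle.ext (hcm x y)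
  · exact Continuous.subtype_mk hccont _
  · intro h1
    apply hc0
    have := congrArg (fun z : Circle => (z : ℂ)) h1
    exact this

end Pool.Agent.CAM
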