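import Pool.Agent.CAM.Aff
import Pool.Agent.CAM.Clo
import Pool.Agent.CAM.PWc

set_option autoImplicit false

/-! Module Fin: the theorem for exponents `n` (`fin_one`) and for linear polynomials (`fin_main`).
`fin_one`: `mult` with `Φ = chars G`, `den` (with `pw`), `aff`.
`fin_main`: `p_i = a_i t + b_i`; `T_i^(a_i n + b_i) x = (T_i^a_i)^n (T_i^b_i x)`; the maps `T_i^a_i` are affine and commute, `f_i ∘ T_i^b_i` is bounded and
measurable; the averages over `Icc 1 N` are those of `n ↦ s (n+1)`: absorb the shift in `b_i` (`n + 1`) as well. -/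

open Finset Filter Topology MeasureTheory Polynomial

namespace Pool.Agent.CAM

theorem fin_one {G : Type*} [CommGroup G] [TopologicalSpace G] [IsTopologicalGroup G]
    [CompactSpace G] [T2Space G] [MeasurableSpace G] [BorelSpace G] (μ : Measure G)
    [μ.IsHaarMeasure] [μ.Regular] [IsProbabilityMeasure μ] {k : ℕ} (T : Fin k → Equiv.Perm G)
    (hT : ∀ i, IsAff (T i)) (hcomm : ∀ i j, T i * T j = T j * T i) (f : Fin k → G → ℂ)
    (hf : ∀ i, Measurable (f i)) (hb : ∀ i, ∃ C : ℝ, ∀ x, ‖f i x‖ ≤ C) :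
    ∀ᵐ x ∂μ, Cv (fun n => ∏ i, f i ((T i)^[n] x)) := by
  refine mult μ (fun i => (T i : G → G)) (fun i => (hT i).mp μ) (chars G) ?_ ?_ ?_ ?_ f hf hb
  · intro φ hφ
    exact (char_cont (Submodule.subset_span hφ)).measurable
  · rintro φ ⟨χ, rfl⟩
    exact ⟨1, fun x => le_of_eq (Circle.norm_coe _)⟩
  · intro f _ hfi ε hε
    exact den μ (fun x hx => pw x hx) f hfi ε hε
  · intro φ hφ
    choose χ hχ using hφ
    have h1 := aff μ T hT hcomm χ
    filter_upwards [h1] with x hx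
    have h2 : (fun n => ∏ i, φ i ((T i)^[n] x)) = fun n => ∏ i, (χ i ((T i)^[n] x) : ℂ) := by
      funext n
      refine Finset.prod_congr rfl fun i _ => ?_
      rw [← hχ i]
    rw [h2]
    exact hx

theorem fin_main {G : Type*} [CommGroup G] [TopologicalSpace G] [IsTopologicalGroup G]
    [CompactSpace G] [T2Space G] [MeasurableSpace G] [BorelSpace G] (μ : Measure G)
    [μ.IsHaarMeasure] [μ.Regular] [IsProbabilityMeasure μ] {k : ℕ} (T : Fin k → Equiv.Perm G)
    (hT : ∀ i, ∃ (α : G ≃ₜ* G) (c : G), ∀ x, T i x = c * α x)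
    (hcomm : ∀ i j, T i * T j = T j * T i) (p : Fin k → ℤ[X]) (hp : ∀ i, (p i).natDegree ≤ 1)
    (f : Fin k → G → ℂ) (hf : ∀ i, Measurable (f i)) (hb : ∀ i, ∃ C : ℝ, ∀ x, ‖f i x‖ ≤ C) :
    ∀ᵐ x ∂μ, ∃ L : ℂ, Tendsto (fun N : ℕ => (1 / (N : ℂ)) * ∑ n ∈ Finset.Icc 1 N,
      ∏ i, f i ((T i ^ ((p i).eval (n : ℤ))) x)) atTop (𝓝 L) := by
  have hA : ∀ i, IsAff (T i) := hT
  -- slopes and intercepts
  set a : Fin k → ℤ := fun i => (p i).coeff 1 with ha
  set b : Fin k → ℤ := fun i => (p i).coeff 0 + (p i).coeff 1 with hbdef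
  have hev : ∀ i (n : ℕ), (p i).eval ((n + 1 : ℕ) : ℤ) = a i * n + b i := by
    intro i n
    rw [Polynomial.eval_eq_sum_range' (Nat.lt_succ_of_le (hp i)), Finset.sum_range_succ,
      Finset.sum_range_one]
    simp only [ha, hbdef]
    push_cast
    ring
  have hc' : ∀ i j, T i ^ a i * T j ^ a j = T j ^ a j * T i ^ a i := by
    intro i j
    exact ((show Commute (T i) (T j) from hcomm i j).zpow_zpow (a i) (a j))
  have hmain := fin_one μ (fun i => T i ^ a i) (fun i => (hA i).zpow (a i)) hc'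
    (fun i x => f i ((T i ^ b i) x))
    (fun i => (hf i).comp (((hA i).zpow (b i)).mp μ).measurable)
    (fun i => by
      obtain ⟨C, hC⟩ := hb i
      exact ⟨C, fun x => hC _⟩)
  filter_upwards [hmain] with x hx
  obtain ⟨L, hL⟩ := hx
  refine ⟨L, ?_⟩
  refine hL.congr fun N => ?_
  unfold ces
  congr 1
  have h1 : ∑ n ∈ Finset.Icc 1 N, ∏ i, f i ((T i ^ ((p i).eval (n : ℤ))) x) =
      ∑ n ∈ Finset.range N, ∏ i, f i ((T i ^ ((p i).eval ((n + 1 : ℕ) : ℤ))) x) := by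
    rw [Finset.range_eq_Ico, Finset.sum_Ico_add' (fun n : ℕ => ∏ i, f i ((T i ^ ((p i).eval (n : ℤ))) x)) 0 N 1]
    rfl
  rw [h1]
  refine Finset.sum_congr rfl fun n _ => Finset.prod_congr rfl fun i _ => ?_
  rw [hev i n]
  congr 1
  have e : T i ^ (a i * (n : ℤ) + b i) = T i ^ b i * (T i ^ a i) ^ n := by
    rw [add_comm (a i * (n : ℤ)), zpow_add (T i) (b i), zpow_mul, zpow_natCast]
  rw [e, Equiv.Perm.mul_apply, Equiv.Perm.iterate_eq_pow]

end Pool.Agent.CAM
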