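import Mathlib

set_option autoImplicit false

/-! Module PWa: the convolution operator `K f (x) = ∫ φ(x y⁻¹) f(y) dμ(y)` on `L²(G)` is bounded and compact (`G` compact group, `φ`
continuous).  For `f ∈ L²` the function `x ↦ ∫ φ(x y⁻¹) f(y) dμ(y)` is continuous and bounded by `‖φ‖_∞ ‖f‖_1 ≤ ‖φ‖_∞ ‖f‖_2`
(`μ` probability).  Compactness: `K` factors through `C(G)`, and the image of the unit ball in `C(G)` is bounded and
equicontinuous, so relatively compact by Arzela-Ascoli.
`pwa_cont`: the continuous representative. -/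

open Filter Topology MeasureTheory

namespace Pool.Agent.CAM

section

variable {G : Type*} [TopologicalSpace G] [CompactSpace G] [MeasurableSpace G] [BorelSpace G]
  (μ : Measure G) [IsProbabilityMeasure μ]

theorem PWa_int (g : C(G, ℂ)) (f : Lp ℂ 2 μ) : Integrable (fun y => g y * f y) μ := by
  have hf : Integrable (f : G → ℂ) μ := (Lp.memLp f).integrable (by norm_num)
  refine Integrable.bdd_mul (c := ‖g‖) hf g.continuous.aestronglyMeasurable ?_
  exact Eventually.of_forall fun x => g.norm_coe_le_norm x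

theorem PWa_bound (g : C(G, ℂ)) (f : Lp ℂ 2 μ) :
    ‖∫ y, g y * f y ∂μ‖ ≤ ‖g‖ * ‖f‖ := by
  have hfm := Lp.memLp f
  have hf : Integrable (f : G → ℂ) μ := hfm.integrable (by norm_num)
  have h1 : ∫ y, ‖f y‖ ∂μ ≤ ‖f‖ := by
    rw [Lp.norm_def, integral_norm_eq_lintegral_enorm hfm.1, ← eLpNorm_one_eq_lintegral_enorm]
    exact ENNReal.toReal_mono hfm.2.ne
      (eLpNorm_le_eLpNorm_of_exponent_le (by norm_num) hfm.1)
  calc ‖∫ y, g y * f y ∂μ‖ ≤ ∫ y, ‖g y * f y‖ ∂μ := norm_integral_le_integral_norm _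
    _ ≤ ∫ y, ‖g‖ * ‖f y‖ ∂μ := by
        refine integral_mono (PWa_int μ g f).norm (hf.norm.const_mul _) fun y => ?_
        simp only [norm_mul]
        exact mul_le_mul_of_nonneg_right (g.norm_coe_le_norm y) (norm_nonneg _)
    _ = ‖g‖ * ∫ y, ‖f y‖ ∂μ := integral_const_mul _ _
    _ ≤ ‖g‖ * ‖f‖ := mul_le_mul_of_nonneg_left h1 (norm_nonneg _)

theorem PWa_sub (g h : C(G, ℂ)) (f : Lp ℂ 2 μ) :
    ‖(∫ y, g y * f y ∂μ) - ∫ y, h y * f y ∂μ‖ ≤ ‖g - h‖ * ‖f‖ := by
  rw [← integral_sub (PWa_int μ g f) (PWa_int μ h f)]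
  have : (fun y => g y * f y - h y * f y) = fun y => (g - h) y * f y := by
    funext y
    simp [sub_mul]
  rw [this]
  exact PWa_bound μ (g - h) f

end

section

variable {G : Type*} [CommGroup G] [TopologicalSpace G] [IsTopologicalGroup G] [CompactSpace G]
    [MeasurableSpace G] [BorelSpace G]

/-- the kernel as a continuous family of continuous functions -/
noncomputable def PWa_ker (φ : C(G, ℂ)) : C(G, C(G, ℂ)) :=
  ContinuousMap.curry ⟨fun p : G × G => φ (p.1 * p.2⁻¹), by fun_prop⟩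

omit [CompactSpace G] [MeasurableSpace G] [BorelSpace G] in
theorem PWa_ker_apply (φ : C(G, ℂ)) (x y : G) : PWa_ker φ x y = φ (x * y⁻¹) := rfl

variable (μ : Measure G) [IsProbabilityMeasure μ]

theorem PWa_cont (φ : C(G, ℂ)) (f : Lp ℂ 2 μ) :
    Continuous (fun x => ∫ y, φ (x * y⁻¹) * f y ∂μ) := by
  have h : LipschitzWith (Real.toNNReal ‖f‖) (fun g : C(G, ℂ) => ∫ y, g y * f y ∂μ) := by
    refine LipschitzWith.of_dist_le_mul fun g h => ?_
    rw [dist_eq_norm, dist_eq_norm, Real.coe_toNNReal _ (norm_nonneg _), mul_comm]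
    exact PWa_sub μ g h f
  exact h.continuous.comp (PWa_ker φ).continuous

omit [MeasurableSpace G] [BorelSpace G] in
theorem PWa_kernorm (φ : C(G, ℂ)) (x : G) : ‖PWa_ker φ x‖ ≤ ‖φ‖ := by
  rw [ContinuousMap.norm_le _ (norm_nonneg _)]
  intro y
  exact φ.norm_coe_le_norm _

/-- the convolution operator into the continuous functions -/
noncomputable def PWa_K (φ : C(G, ℂ)) : Lp ℂ 2 μ →L[ℂ] BoundedContinuousFunction G ℂ :=
  LinearMap.mkContinuous
    { toFun := fun f => BoundedContinuousFunction.mkOfCompact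
        ⟨fun x => ∫ y, φ (x * y⁻¹) * f y ∂μ, PWa_cont μ φ f⟩
      map_add' := fun f g => by
        ext x
        simp only [BoundedContinuousFunction.mkOfCompact_apply, ContinuousMap.coe_mk,
          BoundedContinuousFunction.coe_add, Pi.add_apply]
        have h := integral_add (PWa_int μ (PWa_ker φ x) f) (PWa_int μ (PWa_ker φ x) g)
        simp only [PWa_ker_apply] at h
        rw [← h]
        refine integral_congr_ae ?_
        filter_upwards [Lp.coeFn_add f g] with y hy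
        rw [hy, Pi.add_apply, mul_add]
      map_smul' := fun c f => by
        ext x
        simp only [BoundedContinuousFunction.mkOfCompact_apply, ContinuousMap.coe_mk,
          BoundedContinuousFunction.coe_smul, RingHom.id_apply, smul_eq_mul]
        rw [← integral_const_mul]
        refine integral_congr_ae ?_
        filter_upwards [Lp.coeFn_smul c f] with y hy
        rw [hy, Pi.smul_apply, smul_eq_mul]
        ring }
    ‖φ‖ (fun f => by
      rw [BoundedContinuousFunction.norm_le (by positivity)]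
      intro x
      exact (PWa_bound μ (PWa_ker φ x) f).trans
        (mul_le_mul_of_nonneg_right (PWa_kernorm φ x) (norm_nonneg _)))

theorem PWa_K_apply (φ : C(G, ℂ)) (f : Lp ℂ 2 μ) (x : G) :
    PWa_K μ φ f x = ∫ y, φ (x * y⁻¹) * f y ∂μ := rfl

theorem PWa_K_bound (φ : C(G, ℂ)) (f : Lp ℂ 2 μ) (x : G) :
    ‖PWa_K μ φ f x‖ ≤ ‖φ‖ * ‖f‖ :=
  (PWa_bound μ (PWa_ker φ x) f).trans
        (mul_le_mul_of_nonneg_right (PWa_kernorm φ x) (norm_nonneg _))

theorem PWa_K_compact (φ : C(G, ℂ)) : IsCompactOperator (PWa_K μ φ) := by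
  have key := (isCompactOperator_iff_isCompact_closure_image_closedBall
    (PWa_K μ φ : Lp ℂ 2 μ →ₗ[ℂ] BoundedContinuousFunction G ℂ) (r := 1) one_pos)
  refine key.mpr ?_
  refine BoundedContinuousFunction.arzela_ascoli (Metric.closedBall (0 : ℂ) ‖φ‖)
    (isCompact_closedBall _ _) _ ?_ ?_
  · rintro g x ⟨f, hf, rfl⟩
    rw [mem_closedBall_zero_iff] at hf ⊢
    exact (PWa_K_bound μ φ f x).trans (mul_le_of_le_one_right (norm_nonneg _) hf)
  · intro x₀
    rw [Metric.equicontinuousAt_iff_right]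
    intro ε hε
    have hc := (PWa_ker φ).continuous.tendsto x₀
    rw [Metric.tendsto_nhds] at hc
    filter_upwards [hc ε hε] with x hx
    rintro ⟨g, f, hf, rfl⟩
    rw [mem_closedBall_zero_iff] at hf
    rw [dist_comm, dist_eq_norm]
    rw [dist_eq_norm] at hx
    refine lt_of_le_of_lt ?_ hx
    exact (PWa_sub μ (PWa_ker φ x) (PWa_ker φ x₀) f).trans
      (mul_le_of_le_one_right (norm_nonneg _) hf)

theorem PWa_main (φ : C(G, ℂ)) : ∃ K : Lp ℂ 2 μ →L[ℂ] Lp ℂ 2 μ, IsCompactOperator K ∧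
      ∀ f : Lp ℂ 2 μ, K f =ᵐ[μ] fun x => ∫ y, φ (x * y⁻¹) * f y ∂μ := by
  refine ⟨(BoundedContinuousFunction.toLp 2 μ ℂ).comp (PWa_K μ φ), ?_, ?_⟩
  · exact (PWa_K_compact μ φ).clm_comp (BoundedContinuousFunction.toLp 2 μ ℂ)
  · intro f
    exact BoundedContinuousFunction.coeFn_toLp 2 μ ℂ (PWa_K μ φ f)

end

theorem pwa {G : Type*} [CommGroup G] [TopologicalSpace G] [IsTopologicalGroup G] [CompactSpace G]
    [T2Space G] [MeasurableSpace G] [BorelSpace G] (μ : Measure G) [IsProbabilityMeasure μ]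
    (φ : C(G, ℂ)) : ∃ K : Lp ℂ 2 μ →L[ℂ] Lp ℂ 2 μ, IsCompactOperator K ∧
      ∀ f : Lp ℂ 2 μ, K f =ᵐ[μ] fun x => ∫ y, φ (x * y⁻¹) * f y ∂μ := PWa_main μ φ

theorem pwa_cont {G : Type*} [CommGroup G] [TopologicalSpace G] [IsTopologicalGroup G]
    [CompactSpace G] [T2Space G] [MeasurableSpace G] [BorelSpace G] (μ : Measure G)
    [IsProbabilityMeasure μ] (φ : C(G, ℂ)) (f : Lp ℂ 2 μ) :
    Continuous (fun x => ∫ y, φ (x * y⁻¹) * f y ∂μ) := PWa_cont μ φ f

end Pool.Agent.CAM
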