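import Pool.Agent.CAM.Defs

set_option autoImplicit false

/-! Module Vdc: van der Corput's difference theorem for a bounded sequence of complex numbers.
`ces_shift`: `|ces (s (· + h)) N - ces s N| ≤ 2h/N`.
`vdc`: fix `H ≥ 1`.  `(1/N) ∑_{n<N} s n = (1/N) ∑_{n<N} (1/H) ∑_{h<H} s(n+h) + O(H/N)`; by Cauchy-Schwarz
`|(1/N) ∑_{n<N} (1/H) ∑_{h<H} s(n+h)|² ≤ (1/N) ∑_{n<N} |(1/H) ∑_{h<H} s(n+h)|² = (1/H²) ∑_{h,h'<H} (1/N) ∑_{n<N} s(n+h) conj(s(n+h'))`;
for `h ≠ h'` the inner average tends to `0` as `N → ∞` (shift by `min h h'`, and conjugate if `h < h'`), for `h = h'` it is `≤ 1`.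
So `limsup |ces s N|² ≤ 1/H` for every `H`. -/

open Finset Filter Topology

namespace Pool.Agent.CAM

theorem Vdc_close (s : ℕ → ℂ) (hs : ∀ n, ‖s n‖ ≤ 1) (h N : ℕ) :
    ‖ces (fun n => s (n + h)) N - ces s N‖ ≤ 2 * h / N := by
  unfold ces
  rw [← mul_sub]
  have e : ∑ n ∈ range N, s (n + h) - ∑ n ∈ range N, s n =
      ∑ x ∈ range h, s (N + x) - ∑ x ∈ range h, s x := by
    have h1 := Finset.sum_range_add s N h
    have h2 := Finset.sum_range_add s h N
    rw [add_comm h N, h1] at h2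
    have h3 : ∑ x ∈ range N, s (h + x) = ∑ n ∈ range N, s (n + h) := by
      refine Finset.sum_congr rfl fun x _ => by rw [add_comm]
    rw [h3] at h2
    linear_combination -h2
  rw [e, norm_mul]
  have h4 : ‖∑ x ∈ range h, s (N + x) - ∑ x ∈ range h, s x‖ ≤ 2 * h := by
    refine (norm_sub_le _ _).trans ?_
    have a := (norm_sum_le (range h) (fun x => s (N + x))).trans
      (Finset.sum_le_card_nsmul _ _ 1 (fun x _ => hs _))
    have b := (norm_sum_le (range h) (fun x => s x)).trans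
      (Finset.sum_le_card_nsmul _ _ 1 (fun x _ => hs _))
    simp at a b
    linarith
  have h5 : ‖(1 / (N : ℂ))‖ = 1 / N := by simp
  rw [h5]
  calc (1 / (N:ℝ)) * ‖∑ x ∈ range h, s (N + x) - ∑ x ∈ range h, s x‖
      ≤ (1 / N) * (2 * h) := by gcongr
    _ = _ := by ring

theorem Vdc_diff (s : ℕ → ℂ) (hs : ∀ n, ‖s n‖ ≤ 1) (h : ℕ) :
    Tendsto (fun N => ces (fun n => s (n + h)) N - ces s N) atTop (𝓝 0) := by
  refine squeeze_zero_norm (Vdc_close s hs h) ?_
  exact tendsto_const_div_atTop_nhds_zero_nat _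

theorem ces_shift (s : ℕ → ℂ) (hs : ∀ n, ‖s n‖ ≤ 1) (h : ℕ) (L : ℂ) :
    Tendsto (ces (fun n => s (n + h))) atTop (𝓝 L) ↔ Tendsto (ces s) atTop (𝓝 L) := by
  have hd := Vdc_diff s hs h
  constructor
  · intro h1
    have := h1.sub hd
    simpa using this
  · intro h1
    have := h1.add hd
    simpa using this

theorem Vdc_conj (s : ℕ → ℂ) (N : ℕ) :
    ces (fun n => (starRingEnd ℂ) (s n)) N = (starRingEnd ℂ) (ces s N) := by
  unfold ces
  simp [map_sum]

/-- the correlations of distinct shifts tend to `0` -/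
theorem Vdc_corr (s : ℕ → ℂ) (hs : ∀ n, ‖s n‖ ≤ 1)
    (h : ∀ h : ℕ, 1 ≤ h → Tendsto (ces (fun n => s (n + h) * (starRingEnd ℂ) (s n))) atTop (𝓝 0))
    (a b : ℕ) (hab : a ≠ b) :
    Tendsto (ces (fun n => s (n + a) * (starRingEnd ℂ) (s (n + b)))) atTop (𝓝 0) := by
  have key : ∀ a b : ℕ, b < a →
      Tendsto (ces (fun n => s (n + a) * (starRingEnd ℂ) (s (n + b)))) atTop (𝓝 0) := by
    intro a b hba
    obtain ⟨k, rfl⟩ : ∃ k, a = b + k := ⟨a - b, by omega⟩
    have h1 := h k (by omega)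
    have h2 : ∀ n, ‖(fun n => s (n + k) * (starRingEnd ℂ) (s n)) n‖ ≤ 1 := by
      intro n
      simp only [norm_mul, RCLike.norm_conj]
      exact mul_le_one₀ (hs _) (norm_nonneg _) (hs _)
    have h3 := (ces_shift _ h2 b 0).mpr h1
    have e : (fun n => (fun n => s (n + k) * (starRingEnd ℂ) (s n)) (n + b)) =
        (fun n => s (n + (b + k)) * (starRingEnd ℂ) (s (n + b))) := by
      funext n
      simp only [add_assoc]
    rw [← e]
    exact h3
  rcases lt_or_gt_of_ne hab with h1 | h1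
  · have h2 := key b a h1
    have h3 : ces (fun n => s (n + a) * (starRingEnd ℂ) (s (n + b))) =
        fun N => (starRingEnd ℂ) (ces (fun n => s (n + b) * (starRingEnd ℂ) (s (n + a))) N) := by
      funext N
      rw [← Vdc_conj]
      congr 1
      funext n
      simp [mul_comm]
    rw [h3]
    have h4 := (RCLike.continuous_conj (K := ℂ)).continuousAt.tendsto.comp h2
    simpa [Function.comp_def] using h4
  · exact key a b h1

theorem Vdc_cs (t : ℕ → ℂ) (N : ℕ) :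
    ‖ces t N‖ ^ 2 ≤ (1 / (N : ℝ)) * ∑ n ∈ range N, ‖t n‖ ^ 2 := by
  rcases Nat.eq_zero_or_pos N with rfl | hN
  · simp [ces]
  have hN' : (0 : ℝ) < N := by exact_mod_cast hN
  have h1 : ‖∑ n ∈ range N, t n‖ ^ 2 ≤ N * ∑ n ∈ range N, ‖t n‖ ^ 2 := by
    have h2 := norm_sum_le (range N) t
    calc ‖∑ n ∈ range N, t n‖ ^ 2 ≤ (∑ n ∈ range N, ‖t n‖) ^ 2 := by gcongr
      _ ≤ (range N).card * ∑ n ∈ range N, ‖t n‖ ^ 2 := sq_sum_le_card_mul_sum_sq
      _ = _ := by simp
  unfold ces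
  rw [norm_mul, mul_pow]
  have h5 : ‖(1 / (N : ℂ))‖ = 1 / N := by simp
  rw [h5]
  calc (1 / (N : ℝ)) ^ 2 * ‖∑ n ∈ range N, t n‖ ^ 2
      ≤ (1 / (N : ℝ)) ^ 2 * (N * ∑ n ∈ range N, ‖t n‖ ^ 2) := by gcongr
    _ = _ := by field_simp

theorem Vdc_sum (s : ℕ → ℂ) (H N : ℕ) :
    ces (fun n => ∑ h ∈ range H, s (n + h)) N = ∑ h ∈ range H, ces (fun n => s (n + h)) N := by
  unfold ces
  rw [Finset.sum_comm, Finset.mul_sum]

theorem Vdc_sq (s : ℕ → ℂ) (hs : ∀ n, ‖s n‖ ≤ 1) (H N : ℕ) :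
    (1 / (N : ℝ)) * ∑ n ∈ range N, ‖∑ h ∈ range H, s (n + h)‖ ^ 2 ≤
      H + ‖∑ a ∈ range H, ∑ b ∈ range H, if a = b then (0 : ℂ) else
        ces (fun n => s (n + a) * (starRingEnd ℂ) (s (n + b))) N‖ := by
  rcases Nat.eq_zero_or_pos N with rfl | hN
  · simp
    positivity
  have hN' : (0 : ℝ) < N := by exact_mod_cast hN
  have e1 : (((1 / (N : ℝ)) * ∑ n ∈ range N, ‖∑ h ∈ range H, s (n + h)‖ ^ 2 : ℝ) : ℂ) =
      ∑ a ∈ range H, ∑ b ∈ range H,
        ces (fun n => s (n + a) * (starRingEnd ℂ) (s (n + b))) N := by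
    unfold ces
    simp_rw [← Finset.mul_sum]
    push_cast
    congr 1
    have e2 : ∀ n, ((‖∑ h ∈ range H, s (n + h)‖ : ℂ)) ^ 2 =
        ∑ a ∈ range H, ∑ b ∈ range H, s (n + a) * (starRingEnd ℂ) (s (n + b)) := by
      intro n
      rw [← Complex.mul_conj', map_sum, Finset.sum_mul_sum]
    rw [Finset.sum_congr rfl fun n _ => e2 n, Finset.sum_comm]
    refine Finset.sum_congr rfl fun a _ => ?_
    rw [Finset.sum_comm]
  have e3 : ∑ a ∈ range H, ∑ b ∈ range H,
        ces (fun n => s (n + a) * (starRingEnd ℂ) (s (n + b))) N =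
      ∑ a ∈ range H, ces (fun n => s (n + a) * (starRingEnd ℂ) (s (n + a))) N +
      ∑ a ∈ range H, ∑ b ∈ range H, if a = b then (0 : ℂ) else
        ces (fun n => s (n + a) * (starRingEnd ℂ) (s (n + b))) N := by
    rw [← Finset.sum_add_distrib]
    refine Finset.sum_congr rfl fun a ha => ?_
    have e4 : ∀ b ∈ range H, ces (fun n => s (n + a) * (starRingEnd ℂ) (s (n + b))) N =
        (if a = b then ces (fun n => s (n + a) * (starRingEnd ℂ) (s (n + a))) N else 0) +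
        (if a = b then (0 : ℂ) else
          ces (fun n => s (n + a) * (starRingEnd ℂ) (s (n + b))) N) := by
      intro b _
      by_cases hab : a = b
      · subst hab
        simp
      · simp [hab]
    rw [Finset.sum_congr rfl e4, Finset.sum_add_distrib, Finset.sum_ite_eq, if_pos ha]
  have h1 : ‖(((1 / (N : ℝ)) * ∑ n ∈ range N, ‖∑ h ∈ range H, s (n + h)‖ ^ 2 : ℝ) : ℂ)‖ =
      (1 / (N : ℝ)) * ∑ n ∈ range N, ‖∑ h ∈ range H, s (n + h)‖ ^ 2 := by
    rw [Complex.norm_real, Real.norm_of_nonneg]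
    positivity
  rw [← h1, e1, e3]
  refine (norm_add_le _ _).trans ?_
  gcongr
  refine (norm_sum_le _ _).trans ?_
  calc ∑ a ∈ range H, ‖ces (fun n => s (n + a) * (starRingEnd ℂ) (s (n + a))) N‖
      ≤ ∑ a ∈ range H, (1 : ℝ) := by
        refine Finset.sum_le_sum fun a _ => ?_
        unfold ces
        rw [norm_mul]
        have h5 : ‖(1 / (N : ℂ))‖ = 1 / N := by simp
        rw [h5]
        have h6 : ‖∑ n ∈ range N, s (n + a) * (starRingEnd ℂ) (s (n + a))‖ ≤ N := by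
          refine (norm_sum_le _ _).trans ?_
          calc ∑ n ∈ range N, ‖s (n + a) * (starRingEnd ℂ) (s (n + a))‖
              ≤ ∑ n ∈ range N, (1 : ℝ) := by
                refine Finset.sum_le_sum fun n _ => ?_
                simp only [norm_mul, RCLike.norm_conj]
                exact mul_le_one₀ (hs _) (norm_nonneg _) (hs _)
            _ = N := by simp
        calc (1 / (N : ℝ)) * ‖∑ n ∈ range N, s (n + a) * (starRingEnd ℂ) (s (n + a))‖
            ≤ (1 / (N : ℝ)) * N := by gcongr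
          _ = 1 := by field_simp
    _ = H := by simp

theorem vdc (s : ℕ → ℂ) (hs : ∀ n, ‖s n‖ ≤ 1)
    (h : ∀ h : ℕ, 1 ≤ h → Tendsto (ces (fun n => s (n + h) * (starRingEnd ℂ) (s n))) atTop (𝓝 0)) :
    Tendsto (ces s) atTop (𝓝 0) := by
  rw [Metric.tendsto_atTop]
  intro ε hε
  obtain ⟨H, hH⟩ := exists_nat_gt (max 1 (8 / ε ^ 2))
  have hH1 : (1 : ℝ) < H := (le_max_left _ _).trans_lt hH
  have hH2 : 8 / ε ^ 2 < (H : ℝ) := (le_max_right _ _).trans_lt hH
  have hH0 : (0 : ℝ) < H := by linarith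
  have h1 : Tendsto (fun N => ∑ a ∈ range H, ∑ b ∈ range H, if a = b then (0 : ℂ) else
        ces (fun n => s (n + a) * (starRingEnd ℂ) (s (n + b))) N) atTop (𝓝 0) := by
    have : (0 : ℂ) = ∑ a ∈ range H, ∑ b ∈ range H, (0 : ℂ) := by simp
    rw [this]
    refine tendsto_finsetSum _ fun a _ => tendsto_finsetSum _ fun b _ => ?_
    by_cases hab : a = b
    · simp [hab]
    · simp only [hab, if_false]
      exact Vdc_corr s hs h a b hab
  have h2 : Tendsto (fun N : ℕ => ∑ h ∈ range H, (ces (fun n => s (n + h)) N - ces s N)) atTop (𝓝 0) := by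
    have : (0 : ℂ) = ∑ a ∈ range H, (0 : ℂ) := by simp
    rw [this]
    exact tendsto_finsetSum _ fun a _ => Vdc_diff s hs a
  have h1' := (Metric.tendsto_atTop.mp h1) 1 one_pos
  have h2' := (Metric.tendsto_atTop.mp h2) (ε / 4) (by positivity)
  obtain ⟨N1, hN1⟩ := h1'
  obtain ⟨N2, hN2⟩ := h2'
  refine ⟨max N1 N2, fun N hN => ?_⟩
  have a1 := hN1 N ((le_max_left _ _).trans hN)
  have a2 := hN2 N ((le_max_right _ _).trans hN)
  rw [dist_zero_right] at a1 a2 ⊢
  have b1 := Vdc_cs (fun n => ∑ h ∈ range H, s (n + h)) N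
  have b2 := Vdc_sq s hs H N
  have b3 : ‖ces (fun n => ∑ h ∈ range H, s (n + h)) N‖ ^ 2 ≤ H + 1 := by linarith
  have b4 : (H : ℂ) * ces s N = ces (fun n => ∑ h ∈ range H, s (n + h)) N -
      ∑ h ∈ range H, (ces (fun n => s (n + h)) N - ces s N) := by
    rw [Vdc_sum, Finset.sum_sub_distrib]
    simp
  have b5 : (H : ℝ) * ‖ces s N‖ ≤ ‖ces (fun n => ∑ h ∈ range H, s (n + h)) N‖ + ε / 4 := by
    have : (H : ℝ) * ‖ces s N‖ = ‖(H : ℂ) * ces s N‖ := by simp
    rw [this, b4]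
    refine (norm_sub_le _ _).trans ?_
    linarith
  have b6 : ‖ces (fun n => ∑ h ∈ range H, s (n + h)) N‖ ≤ H * (ε / 2) := by
    refine abs_le_of_sq_le_sq' ?_ (by positivity) |>.2
    refine b3.trans ?_
    have : 8 < H * ε ^ 2 := by
      rw [div_lt_iff₀ (by positivity)] at hH2
      linarith
    have c1 : (H : ℝ) * 8 < H * (H * ε ^ 2) := by
      exact mul_lt_mul_of_pos_left this hH0
    have c2 : ((H : ℝ) * (ε / 2)) ^ 2 = H * (H * ε ^ 2) / 4 := by ring
    rw [c2]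
    linarith
  have b7 : (H : ℝ) * ‖ces s N‖ < H * ε := by
    have : ε / 4 < H * (ε / 2) := by
      have : 1 * (ε / 2) < H * (ε / 2) := mul_lt_mul_of_pos_right hH1 (by positivity)
      linarith
    linarith
  exact lt_of_mul_lt_mul_left b7 hH0.le

end Pool.Agent.CAM
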